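import Pool.Agent.P.MP_3c2f8c_gt.Ex.Grp

/-!
Definitions that connect the analytic part with the adelic part.
-/

namespace Pool.Agent.P.MP_3c2f8c_gt.Ex

open Matrix

/-- The base point. -/
def oX : XS := ⟨eJ, 1, one_mulVec _⟩

/-- The point-pair invariant `T(x#, y) T(x, y#)`. -/
noncomputable def AA (x y : XS) : ℝ := tri (nJ ℝ) x.1 x.1 y.1 * tri (nJ ℝ) x.1 y.1 y.1 / 4

/-- `G` acts on the symmetric space through `ρ` and on `Z`; the action on the product is free,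
proper and cocompact. -/
structure Nice (G : Type) [Group G] [MulAction G XS] (Z : Type) [MulAction G Z]
    (ρ : G →* E6) : Prop where
  act : ∀ (g : G) (x : XS), g • x = ρ g • x
  free : ∀ (g : G) (x : XS) (z : Z), g • x = x → g • z = z → g = 1
  proper : ∀ (z z' : Z) (R : ℝ), {g : G | g • z = z' ∧ AA oX (g • oX) ≤ R}.Finite
  cocpt : ∃ (R : ℝ) (s : Finset Z), ∀ (x : XS) (z : Z), ∃ g : G, AA oX (g • x) ≤ R ∧ g • z ∈ s

/-- `γ` and `γ'` are matched: their centralisers are isomorphic, compatibly with an isometry of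
the symmetric space and an automorphism of `(Z, κ)`. -/
def Matched {G G' : Type} [Group G] [Group G'] [MulAction G XS] [MulAction G' XS]
    {Z : Type} [MulAction G Z] [MulAction G' Z] (κ : Z → Z → ℕ) (γ : G) (γ' : G') : Prop :=
  ∃ (τ : Subgroup.centralizer {γ} ≃* Subgroup.centralizer {γ'}) (g : E6) (Ψ : Z ≃ Z),
    (∀ t : Subgroup.centralizer {γ}, (t : G) = γ → (τ t : G') = γ') ∧
    (∀ (t : Subgroup.centralizer {γ}) (x : XS), g • ((t : G) • x) = (τ t : G') • (g • x)) ∧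
    (∀ (t : Subgroup.centralizer {γ}) (z : Z), Ψ ((t : G) • z) = (τ t : G') • Ψ z) ∧
    ∀ z z', κ (Ψ z) (Ψ z') = κ z z'

/-- The elements of `G` that contribute to the traces inject into the classes of `G'`. -/
def Transfer (G G' : Type) [Group G] [Group G'] [MulAction G XS] [MulAction G' XS]
    {Z : Type} [MulAction G Z] [MulAction G' Z] (κ : Z → Z → ℕ) : Prop :=
  ∃ (Reg : G → Prop) (φ : G → G'),
    (∀ (m : ℕ) (γ : G) (z : Z), Chain κ (m + 1) z (γ • z) → Reg γ) ∧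
    (∀ γ, Reg γ → Matched κ γ (φ γ)) ∧
    ∀ γ₁ γ₂, Reg γ₁ → Reg γ₂ → IsConj (φ γ₁) (φ γ₂) → IsConj γ₁ γ₂

section Adelic

variable {P : Type} {U : P → Type} [∀ p, Group (U p)] {G G' : Type} [Group G] [Group G']

/-- Compactness of the adelic quotient. -/
def Cocpt (Φ : G →* ∀ p, U p) (ρ : G →* E6) (K : ∀ p, Subgroup (U p)) : Prop :=
  ∃ (R : ℝ) (s : Set (∀ p, U p)), s.Finite ∧ s ⊆ Ad K ∧ ∀ u ∈ Ad K, ∀ x : XS, ∃ g : G, ∃ r ∈ s,
    (∀ p, (r p)⁻¹ * (Φ g p)⁻¹ * u p ∈ K p) ∧ AA oX ((ρ g)⁻¹ • x) ≤ R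

/-- Discreteness of the rational points. -/
def Proper (Φ : G →* ∀ p, U p) (ρ : G →* E6) (K : ∀ p, Subgroup (U p)) : Prop :=
  ∀ u ∈ Ad K, ∀ u' ∈ Ad K, ∀ R : ℝ,
    {g : G | (∀ p, (u' p)⁻¹ * Φ g p * u p ∈ K p) ∧ AA oX (ρ g • oX) ≤ R}.Finite

/-- The adelic data of one side. -/
structure AdData [∀ p, TopologicalSpace (U p)] [∀ p, IsTopologicalGroup (U p)]
    (Φ : G →* ∀ p, U p) (ρ : G →* E6) (K₀ : ∀ p, Subgroup (U p)) : Prop where
  mem : ∀ g, Φ g ∈ Ad K₀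
  inj : ∀ p, Function.Injective (cmp Φ p)
  cocpt : ∀ K, Level K₀ K → Cocpt Φ ρ K
  proper : ∀ K, Level K₀ K → Proper Φ ρ K
  opn : ∀ K, Level K₀ K → ∀ p,
    IsOpen (((Gam Φ K).map (cmp Φ p)).topologicalClosure : Set (U p))

/-- The regular elements of `G` are matched with elements of `G'`, with inversion at the places
where `ε = -1`. -/
def AdMatch (Φ : G →* ∀ p, U p) (Φ' : G' →* ∀ p, U p) (ρ : G →* E6) (ρ' : G' →* E6)
    (K₀ : ∀ p, Subgroup (U p)) (ε : P → ℤ) (Rg : G → Prop) : Prop :=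
  ∃ φ : G → G', (∀ γ, Rg γ → ∃ (τ : Subgroup.centralizer {γ} ≃* Subgroup.centralizer {φ γ})
      (u : ∀ p, U p) (g : E6), (∀ t : Subgroup.centralizer {γ}, (t : G) = γ → (τ t : G') = φ γ) ∧
      (∀ t t' : Subgroup.centralizer {γ}, t * t' = t' * t) ∧ u ∈ Ad K₀ ∧
      (∀ p (t : Subgroup.centralizer {γ}), Φ' (τ t) p * u p = u p * Φ t p ^ ε p) ∧
      ∀ t : Subgroup.centralizer {γ}, ρ' (τ t) * g = g * ρ t) ∧
    ∀ γ₁ γ₂, Rg γ₁ → Rg γ₂ → IsConj (φ γ₁) (φ γ₂) → IsConj γ₁ γ₂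

/-- Hecke data in a group `O`: a compact open subgroup whose normaliser meets every coset of
`fiRes`, and an invariant injective kernel whose closed chains are regular. -/
def HeckeData {O : Type} [Group O] [TopologicalSpace O] (Rg : O → Prop) : Prop :=
  ∃ (K : Subgroup O) (κ : O ⧸ K → O ⧸ K → ℕ), CO K ∧
    (∀ g : O, ∃ e ∈ fiRes O, e⁻¹ * g ∈ Subgroup.normalizer (K : Set O)) ∧ HK κ ∧
    (∀ (g : O) z z', κ (g • z) (g • z') = κ z z') ∧
    ∀ (m : ℕ) (γ : O) (z : O ⧸ K), Chain κ (m + 1) z (γ • z) → Rg γ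

/-- The composition of `Φ` with local isomorphisms. -/
def along {U' : P → Type} [∀ p, Group (U' p)] [∀ p, TopologicalSpace (U p)]
    [∀ p, TopologicalSpace (U' p)] (e : ∀ p, U p ≃ₜ* U' p) (Φ : G →* ∀ p, U p) :
    G →* ∀ p, U' p :=
  MonoidHom.pi fun p => (e p).toMulEquiv.toMonoidHom.comp (cmp Φ p)

end Adelic

/-- The signs attached to a finite set of primes. -/
def eps (S' : Finset Nat.Primes) (p : Nat.Primes) : ℤ := if p ∈ S' then -1 else 1

end Pool.Agent.P.MP_3c2f8c_gt.Ex
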