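import Pool.Agent.P.MP_3c2f8c_gt.Ex.Defs

/-!
Cubic forms in 27 variables as symmetric tensors, Albert pairs, similitudes, derivations, the two
models (definite octonions and Zorn vector matrices), abstract composition algebras.
-/

namespace Pool.Agent.P.MP_3c2f8c_gt.Ex

open Matrix

variable {R S : Type} [CommRing R] [CommRing S]

/-- Tensors of order three. -/
abbrev T3 (R : Type) : Type := I → I → I → R

/-- The trilinear form of a tensor. -/
def tri (n : T3 R) (x y z : I → R) : R := ∑ a, ∑ b, ∑ c, n a b c * (x a * y b * z c)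

/-- The cross product `x × y`, an element of the dual space. -/
def crs (n : T3 R) (x y : I → R) : I → R := fun c => ∑ a, ∑ b, n a b c * (x a * y b)

/-- Base change of a tensor. -/
def T3.map (f : R → S) (n : T3 R) : T3 S := fun a b c => f (n a b c)

/-- Symmetric tensors. -/
def Sym3 (n : T3 R) : Prop := (∀ a b c, n a b c = n b a c) ∧ ∀ a b c, n a b c = n a c b

/-- The linearised adjoint identity. -/
def F4 (n m : T3 R) : Prop :=
  ∀ x y z w, crs m (crs n x y) (crs n z w) + crs m (crs n x z) (crs n y w) +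
    crs m (crs n x w) (crs n y z) =
      tri n x y z • w + tri n x y w • z + tri n x z w • y + tri n y z w • x

/-- Albert pairs: `n` on the space, `m` on its dual. -/
structure IsAlb (n m : T3 R) : Prop where
  sym : Sym3 n
  sym' : Sym3 m
  f4 : F4 n m
  f4' : F4 m n
  tr : ∀ a d, ∑ b, ∑ c, n a b c * m d b c = if a = d then 10 else 0

/-- `g` is a similitude from `n` to `n'` with multiplier `ν`. -/
def Sim (n n' : T3 R) (g : Matrix I I R) (ν : R) : Prop :=
  ∀ x y z, tri n' (g *ᵥ x) (g *ᵥ y) (g *ᵥ z) = ν * tri n x y z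

/-- The pull-back of a tensor along a matrix. -/
def T3.pull (n : T3 R) (g : Matrix I I R) : T3 R :=
  fun a b c => tri n (fun i => g i a) (fun i => g i b) (fun i => g i c)

/-- The multiplier of a similitude of a tensor with `n (inl 0) (inl 1) (inl 2) = 1`. -/
def nu (n : T3 R) (g : Matrix I I R) : R := T3.pull n g (.inl 0) (.inl 1) (.inl 2)

/-- The group of similitudes. -/
def Str (n : T3 R) : Subgroup (GL I R) where
  carrier := {g | ∃ ν : Rˣ, Sim n n g.1 ν}
  one_mem' := ⟨1, fun x y z => by simp⟩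
  mul_mem' := by
    rintro g h ⟨ν, hg⟩ ⟨μ, hh⟩
    refine ⟨ν * μ, fun x y z => ?_⟩
    rw [Units.val_mul, ← mulVec_mulVec, ← mulVec_mulVec, ← mulVec_mulVec, hg, hh, Units.val_mul,
      mul_assoc]
  inv_mem' := by
    rintro g ⟨ν, hg⟩
    refine ⟨ν⁻¹, fun x y z => ?_⟩
    have e : ∀ x, g.1 *ᵥ ((g⁻¹).1 *ᵥ x) = x := fun x => by
      rw [mulVec_mulVec, ← Units.val_mul, mul_inv_cancel, Units.val_one, one_mulVec]
    have h := hg ((g⁻¹).1 *ᵥ x) ((g⁻¹).1 *ᵥ y) ((g⁻¹).1 *ᵥ z)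
    rw [e, e, e] at h
    rw [h, Units.inv_mul_cancel_left]

/-- The inverse transpose. -/
def dag (g : GL I R) : GL I R where
  val := (g⁻¹).1ᵀ
  inv := g.1ᵀ
  val_inv := by rw [← transpose_mul, ← Units.val_mul, mul_inv_cancel, Units.val_one, transpose_one]
  inv_val := by rw [← transpose_mul, ← Units.val_mul, inv_mul_cancel, Units.val_one, transpose_one]

/-- `X` is a derivation of `n` with multiplier `c`. -/
def Der (n : T3 R) (X : Matrix I I R) (c : R) : Prop :=
  ∀ x y z, tri n (X *ᵥ x) y z + tri n x (X *ᵥ y) z + tri n x y (X *ᵥ z) = c * tri n x y z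

/-- The inner derivation `v ↦ ⟨ξ, x⟩ v + ⟨ξ, v⟩ x - ξ × (x × v)`; its multiplier is `2 ⟨ξ, x⟩`. -/
def DD (n m : T3 R) (x ξ : I → R) : Matrix I I R :=
  Matrix.of fun a b => (ξ ⬝ᵥ x) * (1 : Matrix I I R) a b + x a * ξ b -
    crs m ξ (crs n x (Pi.single b 1)) a

/-- There is no totally singular plane. -/
def NoPlane (n : T3 R) : Prop :=
  ∀ x y : I → R, crs n x x = 0 → crs n x y = 0 → crs n y y = 0 → x ≠ 0 → ∃ c : R, y = c • x

section Models

/-- The tensor of hermitian `3 × 3` matrices over an algebra with polar norm form `bl` and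
trilinear trace form `t`. -/
def h3 (bl : Fin 8 → Fin 8 → R) (t : Fin 8 → Fin 8 → Fin 8 → R) : T3 R
  | .inl i, .inl j, .inl k => if i ≠ j ∧ j ≠ k ∧ i ≠ k then 1 else 0
  | .inl i, .inr j, .inr k => if i = j.1 ∧ i = k.1 then -bl j.2 k.2 else 0
  | .inr j, .inl i, .inr k => if i = j.1 ∧ i = k.1 then -bl j.2 k.2 else 0
  | .inr j, .inr k, .inl i => if i = j.1 ∧ i = k.1 then -bl j.2 k.2 else 0
  | .inr i, .inr j, .inr k =>
      if i.1 = 0 ∧ j.1 = 1 ∧ k.1 = 2 then t i.2 j.2 k.2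
      else if i.1 = 0 ∧ k.1 = 1 ∧ j.1 = 2 then t i.2 k.2 j.2
      else if j.1 = 0 ∧ i.1 = 1 ∧ k.1 = 2 then t j.2 i.2 k.2
      else if j.1 = 0 ∧ k.1 = 1 ∧ i.1 = 2 then t j.2 k.2 i.2
      else if k.1 = 0 ∧ i.1 = 1 ∧ j.1 = 2 then t k.2 i.2 j.2
      else if k.1 = 0 ∧ j.1 = 1 ∧ i.1 = 2 then t k.2 j.2 i.2 else 0
  | _, _, _ => 0

/-- The octonion product in coordinates. -/
def om (x y : Fin 8 → R) : Fin 8 → R :=
  ![x 0 * y 0 - x 1 * y 1 - x 2 * y 2 - x 3 * y 3 - x 4 * y 4 - x 5 * y 5 - x 6 * y 6 - x 7 * y 7,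
    x 0 * y 1 + x 1 * y 0 + x 2 * y 3 - x 3 * y 2 + x 4 * y 5 - x 5 * y 4 - x 6 * y 7 + x 7 * y 6,
    x 0 * y 2 - x 1 * y 3 + x 2 * y 0 + x 3 * y 1 + x 4 * y 6 + x 5 * y 7 - x 6 * y 4 - x 7 * y 5,
    x 0 * y 3 + x 1 * y 2 - x 2 * y 1 + x 3 * y 0 + x 4 * y 7 - x 5 * y 6 + x 6 * y 5 - x 7 * y 4,
    x 0 * y 4 - x 1 * y 5 - x 2 * y 6 - x 3 * y 7 + x 4 * y 0 + x 5 * y 1 + x 6 * y 2 + x 7 * y 3,
    x 0 * y 5 + x 1 * y 4 - x 2 * y 7 + x 3 * y 6 - x 4 * y 1 + x 5 * y 0 - x 6 * y 3 + x 7 * y 2,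
    x 0 * y 6 + x 1 * y 7 + x 2 * y 4 - x 3 * y 5 - x 4 * y 2 + x 5 * y 3 + x 6 * y 0 - x 7 * y 1,
    x 0 * y 7 - x 1 * y 6 + x 2 * y 5 + x 3 * y 4 - x 4 * y 3 - x 5 * y 2 + x 6 * y 1 + x 7 * y 0]

/-- The polar form of the octonion norm. -/
def ob (x y : Fin 8 → R) : R := 2 * ∑ u, x u * y u

/-- Octonion conjugation. -/
def ocj (x : Fin 8 → R) : Fin 8 → R := ![x 0, -x 1, -x 2, -x 3, -x 4, -x 5, -x 6, -x 7]

/-- The form `tr ((x y) z)` of the octonions. -/
def ot (x y z : Fin 8 → R) : R := 2 * om (om x y) z 0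

/-- The product of Zorn vector matrices `(a, u, v, b)`, `a = x 0`, `u = (x 1, x 2, x 3)`,
`v = (x 4, x 5, x 6)`, `b = x 7`. -/
def zm (x y : Fin 8 → R) : Fin 8 → R :=
  ![x 0 * y 0 + x 1 * y 4 + x 2 * y 5 + x 3 * y 6,
    x 0 * y 1 + x 1 * y 7 - x 5 * y 6 + x 6 * y 5,
    x 0 * y 2 + x 2 * y 7 - x 6 * y 4 + x 4 * y 6,
    x 0 * y 3 + x 3 * y 7 - x 4 * y 5 + x 5 * y 4,
    x 4 * y 0 + x 7 * y 4 + x 2 * y 3 - x 3 * y 2,
    x 5 * y 0 + x 7 * y 5 + x 3 * y 1 - x 1 * y 3,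
    x 6 * y 0 + x 7 * y 6 + x 1 * y 2 - x 2 * y 1,
    x 7 * y 7 + x 4 * y 1 + x 5 * y 2 + x 6 * y 3]

/-- The polar form of the Zorn norm `a b - u ⬝ v`. -/
def zb (x y : Fin 8 → R) : R :=
  x 0 * y 7 + x 7 * y 0 - x 1 * y 4 - x 4 * y 1 - x 2 * y 5 - x 5 * y 2 - x 3 * y 6 - x 6 * y 3

/-- The form `tr ((x y) z)` of the Zorn algebra. -/
def zt (x y z : Fin 8 → R) : R := zm (zm x y) z 0 + zm (zm x y) z 7

/-- The basis vectors of `ℤ⁸`. -/
def e8 (u : Fin 8) : Fin 8 → ℤ := fun v => if v = u then 1 else 0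

/-- The integral tensor of the norm `NJ`. -/
def nJ0 : T3 ℤ := h3 (fun u v => ob (e8 u) (e8 v)) fun u v w => ot (e8 u) (e8 v) (e8 w)

/-- The integral tensor of the split norm. -/
def nZ0 : T3 ℤ := h3 (fun u v => zb (e8 u) (e8 v)) fun u v w => zt (e8 u) (e8 v) (e8 w)

/-- The tensor of the norm `NJ`. -/
def nJ (R : Type) [CommRing R] : T3 R := fun a b c => (nJ0 a b c : R)

/-- The tensor of the split norm; it is its own dual. -/
def nZ (R : Type) [CommRing R] : T3 R := fun a b c => (nZ0 a b c : R)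

/-- The diagonal of the trace form. -/
def dJ : I → ℚ := Sum.elim 1 2

/-- The dual tensor of `nJ`. -/
def mJ (R : Type) [CommRing R] [Algebra ℚ R] : T3 R :=
  fun a b c => algebraMap ℚ R (nJ0 a b c / (dJ a * dJ b * dJ c))

/-- The Gram matrix of the trace form. -/
def DJ (R : Type) [CommRing R] [Algebra ℚ R] : GL I R where
  val := diagonal fun a => algebraMap ℚ R (dJ a)
  inv := diagonal fun a => algebraMap ℚ R (dJ a)⁻¹
  val_inv := by
    rw [diagonal_mul_diagonal, ← diagonal_one]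
    congr 1
    funext a
    rw [← map_mul, mul_inv_cancel₀ (by cases a <;> simp [dJ]), map_one]
  inv_val := by
    rw [diagonal_mul_diagonal, ← diagonal_one]
    congr 1
    funext a
    rw [← map_mul, inv_mul_cancel₀ (by cases a <;> simp [dJ]), map_one]

/-- The Cartan involution: the inverse of the adjoint for the trace form. -/
def cartan [Algebra ℚ R] (g : GL I R) : GL I R := (DJ R)⁻¹ * dag g * DJ R

/-- The `i`-th octonion entry as a vector. -/
def ov (x : I → R) (i : Fin 3) : Fin 8 → R := fun u => x (.inr (i, u))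

/-- The vector with given diagonal and given octonion entries. -/
def mkJ (α : Fin 3 → R) (y : Fin 3 → Fin 8 → R) : I → R := Sum.elim α fun j => y j.1 j.2

/-- The matrix that fixes the diagonal and acts by `f` on the three octonion entries. -/
def blk (f : Matrix (Fin 8) (Fin 8) R) : Matrix I I R :=
  Matrix.of fun a b => match a, b with
    | .inl i, .inl j => if i = j then 1 else 0
    | .inr i, .inr j => if i.1 = j.1 then f i.2 j.2 else 0
    | _, _ => 0

/-- The action `X ↦ d X d` of a diagonal matrix `d`, as the list of its eigenvalues. -/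
def rdiag (d : Fin 3 → R) : I → R :=
  Sum.elim (fun i => d i ^ 2) fun j => d (j.1 + 1) * d (j.1 + 2)

/-- The cyclic shift of the index set. -/
def sh : I → I := Sum.map (· + 1) fun j => (j.1 + 1, j.2)

/-- The coefficients of `phi b`. -/
def phc (b : R) : I → R := Sum.elim ![1, 1, b ^ 2] fun j => ![b, b, 1] j.1

/-- The action `X ↦ a X aᵀ` of the matrix `a` with `a e₀ = e₁`, `a e₁ = e₂`, `a e₂ = b e₀`. -/
def phi (b : R) : Matrix I I R := Matrix.of fun a c => if a = sh c then phc b c else 0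

end Models

/-- Composition algebras of dimension eight; the norm is `b x x / 2`. -/
structure CompAlg (K C : Type) [Field K] [AddCommGroup C] [Module K C] where
  mul : C →ₗ[K] C →ₗ[K] C
  one : C
  b : C →ₗ[K] C →ₗ[K] K
  one_mul : ∀ x, mul one x = x
  mul_one : ∀ x, mul x one = x
  symm : ∀ x y, b x y = b y x
  nondeg : ∀ x, (∀ y, b x y = 0) → x = 0
  comp : ∀ x y, 2 * b (mul x y) (mul x y) = b x x * b y y
  dim : Module.finrank K C = 8

end Pool.Agent.P.MP_3c2f8c_gt.Ex
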