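import Pool.Agent.P.MP_3c2f8c_gt.Ex.Alb

/-!
Multilinearity and base change for tensors and similitudes.
-/

namespace Pool.Agent.P.MP_3c2f8c_gt.Ex

open Matrix

variable {R S : Type} [CommRing R] [CommRing S] {n n' n'' m : T3 R}

theorem tri_eq_dot (n : T3 R) (x y z : I → R) : tri n x y z = crs n x y ⬝ᵥ z := by
  simp only [tri, crs, dotProduct, Finset.sum_mul]
  rw [Finset.sum_comm]
  rw [Finset.sum_congr rfl fun b _ => Finset.sum_comm, Finset.sum_comm]
  refine Finset.sum_congr rfl fun c _ => ?_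
  rw [Finset.sum_comm]
  exact Finset.sum_congr rfl fun a _ => Finset.sum_congr rfl fun b _ => by ring

theorem crs_add_left (n : T3 R) (x x' y : I → R) : crs n (x + x') y = crs n x y + crs n x' y := by
  funext c
  simp only [crs, Pi.add_apply, add_mul, mul_add, Finset.sum_add_distrib]

theorem crs_add_right (n : T3 R) (x y y' : I → R) : crs n x (y + y') = crs n x y + crs n x y' := by
  funext c
  simp only [crs, Pi.add_apply, mul_add, Finset.sum_add_distrib]

theorem crs_smul_left (n : T3 R) (t : R) (x y : I → R) : crs n (t • x) y = t • crs n x y := by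
  funext c
  simp only [crs, Pi.smul_apply, smul_eq_mul, Finset.mul_sum]
  exact Finset.sum_congr rfl fun a _ => Finset.sum_congr rfl fun b _ => by ring

theorem crs_smul_right (n : T3 R) (t : R) (x y : I → R) : crs n x (t • y) = t • crs n x y := by
  funext c
  simp only [crs, Pi.smul_apply, smul_eq_mul, Finset.mul_sum]
  exact Finset.sum_congr rfl fun a _ => Finset.sum_congr rfl fun b _ => by ring

/-- The cross product as a bilinear map. -/
def crsL (n : T3 R) : (I → R) →ₗ[R] (I → R) →ₗ[R] (I → R) :=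
  LinearMap.mk₂ R (crs n) (crs_add_left n) (crs_smul_left n) (crs_add_right n) (crs_smul_right n)

@[simp] theorem crsL_apply (n : T3 R) (x y : I → R) : crsL n x y = crs n x y := rfl

@[simp] theorem crs_zero_left (n : T3 R) (y : I → R) : crs n 0 y = 0 := by
  funext c
  simp [crs]

@[simp] theorem crs_zero_right (n : T3 R) (x : I → R) : crs n x 0 = 0 := by
  funext c
  simp [crs]

theorem crs_neg_left (n : T3 R) (x y : I → R) : crs n (-x) y = -crs n x y := by
  rw [← crsL_apply, map_neg]
  rfl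

theorem crs_neg_right (n : T3 R) (x y : I → R) : crs n x (-y) = -crs n x y := by
  rw [← crsL_apply, map_neg]
  rfl

theorem crs_sub_left (n : T3 R) (x x' y : I → R) : crs n (x - x') y = crs n x y - crs n x' y := by
  rw [← crsL_apply, map_sub]
  rfl

theorem crs_sub_right (n : T3 R) (x y y' : I → R) : crs n x (y - y') = crs n x y - crs n x y' := by
  rw [← crsL_apply, map_sub]
  rfl

theorem crs_single (n : T3 R) (a b c : I) : crs n (Pi.single a 1) (Pi.single b 1) c = n a b c := by
  simp only [crs]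
  rw [Finset.sum_eq_single a (fun a' _ h => by simp [h]) (by simp),
    Finset.sum_eq_single b (fun b' _ h => by simp [h]) (by simp)]
  simp

theorem tri_single (n : T3 R) (a b c : I) :
    tri n (Pi.single a 1) (Pi.single b 1) (Pi.single c 1) = n a b c := by
  rw [tri_eq_dot, dotProduct_single, crs_single, mul_one]

theorem tri_add₁ (n : T3 R) (x x' y z : I → R) :
    tri n (x + x') y z = tri n x y z + tri n x' y z := by
  simp only [tri_eq_dot, crs_add_left, add_dotProduct]

theorem tri_add₂ (n : T3 R) (x y y' z : I → R) :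
    tri n x (y + y') z = tri n x y z + tri n x y' z := by
  simp only [tri_eq_dot, crs_add_right, add_dotProduct]

theorem tri_add₃ (n : T3 R) (x y z z' : I → R) :
    tri n x y (z + z') = tri n x y z + tri n x y z' := by
  simp only [tri_eq_dot, dotProduct_add]

theorem tri_smul₁ (n : T3 R) (t : R) (x y z : I → R) : tri n (t • x) y z = t * tri n x y z := by
  simp only [tri_eq_dot, crs_smul_left, smul_dotProduct, smul_eq_mul]

theorem tri_smul₂ (n : T3 R) (t : R) (x y z : I → R) : tri n x (t • y) z = t * tri n x y z := by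
  simp only [tri_eq_dot, crs_smul_right, smul_dotProduct, smul_eq_mul]

theorem tri_smul₃ (n : T3 R) (t : R) (x y z : I → R) : tri n x y (t • z) = t * tri n x y z := by
  simp only [tri_eq_dot, dotProduct_smul, smul_eq_mul]

/-- The trilinear form as a trilinear map. -/
def triL (n : T3 R) : (I → R) →ₗ[R] (I → R) →ₗ[R] (I → R) →ₗ[R] R :=
  LinearMap.mk₂ R (fun x y => ⟨⟨tri n x y, tri_add₃ n x y⟩, fun t z => tri_smul₃ n t x y z⟩)
    (fun x x' y => LinearMap.ext fun z => tri_add₁ n x x' y z)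
    (fun t x y => LinearMap.ext fun z => tri_smul₁ n t x y z)
    (fun x y y' => LinearMap.ext fun z => tri_add₂ n x y y' z)
    (fun t x y => LinearMap.ext fun z => tri_smul₂ n t x y z)

@[simp] theorem triL_apply (n : T3 R) (x y z : I → R) : triL n x y z = tri n x y z := rfl

theorem Sym3.crs_comm (h : Sym3 n) (x y : I → R) : crs n x y = crs n y x := by
  funext c
  simp only [crs]
  rw [Finset.sum_comm]
  exact Finset.sum_congr rfl fun a _ => Finset.sum_congr rfl fun b _ => by rw [h.1, mul_comm (x b)]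

theorem Sym3.tri_swap₁₂ (h : Sym3 n) (x y z : I → R) : tri n x y z = tri n y x z := by
  rw [tri_eq_dot, tri_eq_dot, h.crs_comm]

theorem Sym3.tri_swap₂₃ (h : Sym3 n) (x y z : I → R) : tri n x y z = tri n x z y := by
  simp only [tri]
  refine Finset.sum_congr rfl fun a _ => ?_
  rw [Finset.sum_comm]
  exact Finset.sum_congr rfl fun b _ => Finset.sum_congr rfl fun c _ => by rw [h.2]; ring

theorem Sym3.tri_rotate (h : Sym3 n) (x y z : I → R) : tri n x y z = tri n y z x := by
  rw [h.tri_swap₁₂, h.tri_swap₂₃]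

theorem crs_map (f : R →+* S) (n : T3 R) (x y : I → R) :
    crs (n.map f) (f ∘ x) (f ∘ y) = f ∘ crs n x y := by
  funext c
  simp [crs, T3.map]

theorem tri_map (f : R →+* S) (n : T3 R) (x y z : I → R) :
    tri (n.map f) (f ∘ x) (f ∘ y) (f ∘ z) = f (tri n x y z) := by
  simp [tri, T3.map]

theorem tri_ext (h : ∀ x y z, tri n x y z = tri n' x y z) : n = n' := by
  funext a b c
  rw [← tri_single n, h, tri_single]

theorem tri_pull (n : T3 R) (g : Matrix I I R) (x y z : I → R) :
    tri (n.pull g) x y z = tri n (g *ᵥ x) (g *ᵥ y) (g *ᵥ z) := by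
  have e : ∀ x : I → R, g *ᵥ x = ∑ a, x a • fun i => g i a := fun x => by
    funext i
    simp [mulVec, dotProduct, mul_comm]
  rw [e x, e y, e z, ← triL_apply n]
  simp only [map_sum, map_smul, LinearMap.sum_apply, LinearMap.smul_apply, triL_apply, smul_eq_mul,
    Finset.mul_sum]
  rw [tri, Finset.sum_comm]
  rw [Finset.sum_congr rfl fun b _ => Finset.sum_comm, Finset.sum_comm]
  refine Finset.sum_congr rfl fun c _ => Finset.sum_congr rfl fun b _ =>
    Finset.sum_congr rfl fun a _ => ?_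
  simp only [T3.pull]
  ring

theorem tri_smul_tensor (t : R) (n : T3 R) (x y z : I → R) :
    tri (t • n) x y z = t * tri n x y z := by
  simp only [tri, Pi.smul_apply, smul_eq_mul, Finset.mul_sum, mul_assoc]

theorem crs_smul_tensor (t : R) (n : T3 R) (x y : I → R) : crs (t • n) x y = t • crs n x y := by
  funext c
  simp only [crs, Pi.smul_apply, smul_eq_mul, Finset.mul_sum, mul_assoc]

theorem sim_iff_pull {g : Matrix I I R} {ν : R} : Sim n n' g ν ↔ n'.pull g = ν • n :=
  ⟨fun h => tri_ext fun x y z => by rw [tri_pull, h, tri_smul_tensor],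
    fun h x y z => by rw [← tri_pull, h, tri_smul_tensor]⟩

theorem T3.pull_map (f : R →+* S) (n : T3 R) (g : Matrix I I R) :
    (n.map f).pull (g.map f) = (n.pull g).map f := by
  funext a b c
  exact tri_map f n (fun i => g i a) (fun i => g i b) fun i => g i c

theorem Sim.map (f : R →+* S) {g : Matrix I I R} {ν : R} (h : Sim n n' g ν) :
    Sim (n.map f) (n'.map f) (g.map f) (f ν) := by
  rw [sim_iff_pull] at h ⊢
  rw [T3.pull_map, h]
  funext a b c
  simp [T3.map]

theorem Sim.of_map {f : R →+* S} (hf : Function.Injective f) {g : Matrix I I R} {ν : R}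
    (h : Sim (n.map f) (n'.map f) (g.map f) (f ν)) : Sim n n' g ν := by
  rw [sim_iff_pull] at h ⊢
  rw [T3.pull_map] at h
  funext a b c
  apply hf
  simpa [T3.map] using congrFun (congrFun (congrFun h a) b) c

theorem Sim.mul {g h : Matrix I I R} {ν μ : R} (hg : Sim n' n'' g ν) (hh : Sim n n' h μ) :
    Sim n n'' (g * h) (ν * μ) := fun x y z => by
  rw [← mulVec_mulVec, ← mulVec_mulVec, ← mulVec_mulVec, hg, hh, mul_assoc]

theorem sim_one (n : T3 R) : Sim n n 1 1 := fun x y z => by simp

theorem Sim.inv {g : GL I R} {ν : Rˣ} (h : Sim n n' g.1 ν) : Sim n' n (g⁻¹).1 (ν⁻¹).1 :=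
  fun x y z => by
  have e : ∀ x, g.1 *ᵥ ((g⁻¹).1 *ᵥ x) = x := fun x => by
    rw [mulVec_mulVec, ← Units.val_mul, mul_inv_cancel, Units.val_one, one_mulVec]
  have h := h ((g⁻¹).1 *ᵥ x) ((g⁻¹).1 *ᵥ y) ((g⁻¹).1 *ᵥ z)
  rw [e, e, e] at h
  rw [h, Units.inv_mul_cancel_left]

theorem Sim.smul {g : Matrix I I R} {ν : R} (h : Sim n n' g ν) (t : R) :
    Sim n n' (t • g) (t ^ 3 * ν) := fun x y z => by
  rw [smul_mulVec, smul_mulVec, smul_mulVec, tri_smul₁, tri_smul₂, tri_smul₃, h]
  ring

@[simp] theorem nJ_map (f : R →+* S) : (nJ R).map f = nJ S := by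
  funext a b c
  simp [T3.map, nJ]

@[simp] theorem nZ_map (f : R →+* S) : (nZ R).map f = nZ S := by
  funext a b c
  simp [T3.map, nZ]

@[simp] theorem mJ_map [Algebra ℚ R] [Algebra ℚ S] (f : R →+* S) : (mJ R).map f = mJ S := by
  funext a b c
  exact RingHom.map_rat_algebraMap f _

theorem phi_map (f : R →+* S) (b : R) : (phi b).map f = phi (f b) := by
  ext a c
  simp only [phi, map_apply, of_apply]
  split_ifs
  · rcases c with i | ⟨i, u⟩ <;> fin_cases i <;> simp [phc]
  · exact map_zero f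

theorem nJ_base : nJ R (.inl 0) (.inl 1) (.inl 2) = 1 := by simp [nJ, nJ0, h3]

theorem nZ_base : nZ R (.inl 0) (.inl 1) (.inl 2) = 1 := by simp [nZ, nZ0, h3]

theorem Sim.nu_eq {g : Matrix I I R} {ν : R} (h : Sim n n g ν)
    (h1 : n (.inl 0) (.inl 1) (.inl 2) = 1) : nu n g = ν := by
  rw [nu, sim_iff_pull.1 h]
  simp [h1]

theorem dag_val (g : GL I R) : (dag g).1 = (g⁻¹).1ᵀ := rfl

theorem dag_mul (g h : GL I R) : dag (g * h) = dag g * dag h :=
  Units.ext (by simp [dag_val])

theorem dag_dag (g : GL I R) : dag (dag g) = g := Units.ext rfl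

theorem dag_inv (g : GL I R) : dag g⁻¹ = (dag g)⁻¹ := Units.ext rfl

theorem dag_dot (g : GL I R) (ξ x : I → R) : ((dag g).1 *ᵥ ξ) ⬝ᵥ (g.1 *ᵥ x) = ξ ⬝ᵥ x := by
  rw [dag_val, mulVec_transpose, ← dotProduct_mulVec, mulVec_mulVec, ← Units.val_mul,
    inv_mul_cancel, Units.val_one, one_mulVec]

theorem Sim.crs {g : GL I R} {ν : R} (h : Sim n n' g.1 ν) (x y : I → R) :
    crs n' (g.1 *ᵥ x) (g.1 *ᵥ y) = ν • (dag g).1 *ᵥ crs n x y := by
  have key : ∀ z, Ex.crs n' (g.1 *ᵥ x) (g.1 *ᵥ y) ⬝ᵥ z = (ν • (dag g).1 *ᵥ Ex.crs n x y) ⬝ᵥ z :=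
    fun z => by
    have e : z = g.1 *ᵥ ((g⁻¹).1 *ᵥ z) := by
      rw [mulVec_mulVec, ← Units.val_mul, mul_inv_cancel, Units.val_one, one_mulVec]
    rw [e, ← tri_eq_dot, h, smul_dotProduct, dag_dot, tri_eq_dot, smul_eq_mul]
  funext c
  simpa using key (Pi.single c 1)

end Pool.Agent.P.MP_3c2f8c_gt.Ex
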