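import Pool.Agent.P.MP_3c2f8c_gt.Ex.Grp

/-!
Twisted Albert pairs over a cyclic cubic extension; root vectors of the split model.
-/

namespace Pool.Agent.P.MP_3c2f8c_gt.Ex

open Matrix

/-- The semilinear map `v ↦ φ σ(v)`. -/
def PhiV {L : Type} [CommRing L] (σ : L ≃+* L) (φ : Matrix I I L) (v : I → L) : I → L :=
  φ *ᵥ (σ ∘ v)

/-- An anisotropic twisted Albert pair. -/
structure Tw {L : Type} [Field L] (σ : L ≃+* L) (n m : T3 L) (φ : GL I L) (β : L) : Prop where
  alb : IsAlb n m
  ord : ∀ x, σ (σ (σ x)) = x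
  sim : Sim (n.map σ) n φ.1 β
  cube : φ.1 * φ.1.map σ * (φ.1.map σ).map σ = β • (1 : Matrix I I L)
  nn : ¬ ∃ c, c * σ c * σ (σ c) = β
  np : NoPlane n
  np' : NoPlane m

/-- The root vector of the split model attached to two distinct non-adjacent indices. -/
def Er (R : Type) [CommRing R] (e a : I) : Matrix I I R :=
  DD (nZ R) (nZ R) (Pi.single e 1) (Pi.single a 1)

/-- Distinct non-adjacent indices: the difference of the weights is a root. -/
def Rt (e a : I) : Prop := e ≠ a ∧ ¬ Adj e a

instance (e a : I) : Decidable (Rt e a) := inferInstanceAs (Decidable (_ ∧ _))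

end Pool.Agent.P.MP_3c2f8c_gt.Ex
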