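import Pool.Agent.P.MP_3c2f8c_gt.Ex.Gl.Abs
import Pool.Agent.P.MP_3c2f8c_gt.Ex.Gl.Comp
import Pool.Agent.P.MP_3c2f8c_gt.Ex.Gl.Link
import Pool.Agent.P.MP_3c2f8c_gt.Ex.Gl.Data
import Pool.Agent.P.MP_3c2f8c_gt.Ex.Gl.Arith
import Pool.Agent.P.MP_3c2f8c_gt.Ex.Gl.NonComm
import Pool.Agent.P.MP_3c2f8c_gt.Ex.Lo.Open
import Pool.Agent.P.MP_3c2f8c_gt.Ex.Lo.Level
import Pool.Agent.P.MP_3c2f8c_gt.Ex.Lo.Hecke
import Pool.Agent.P.MP_3c2f8c_gt.Ex.Mt.Main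

/-!
The main theorem in type `E₆`.
-/

namespace Pool.Agent.P.MP_3c2f8c_gt.Ex

theorem adData_UG {b : ℚ} (hb : Good b) {ρ : UG b ℝ ≃* E6} (hρ : IsRho b ρ) :
    AdData (Phi b) (rhoQ ρ) (Kst b) where
  mem := phi_mem_Ad b
  inj p := umap_injective b (algebraMap ℚ ℚ_[p])
  cocpt _ hK := cocpt_UG hb hρ hK
  proper _ hK := proper_UG hb.ne hρ hK
  opn _ hK p := isOpen_closure hb (fun _ hK => (cocpt_UG hb hρ hK).infinite) hK p

theorem main : ∃ Γ₁ Γ₂ : Subgroup E6, IsClosedMfd Γ₁ ∧ IsClosedMfd Γ₂ ∧ IsArith Γ₁ ∧ IsArith Γ₂ ∧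
    Isospectral Γ₁ Γ₂ ∧ ¬ WideComm Γ₁ Γ₂ := by
  obtain ⟨b, b', S', c, hb, hb', hS, hS', hl, hc, hn, h₁, h₂⟩ := exists_data
  obtain ⟨e, he⟩ := exists_link hb.ne hb'.ne c hc hn
  obtain ⟨ρ, hρ⟩ := exists_rho hb.ne
  obtain ⟨ρ', hρ'⟩ := exists_rho hb'.ne
  have := countable_UG b
  have := countable_UG b'
  have D' := adData_UG hb' hρ'
  obtain ⟨K, hK, c₁, c₂, hI⟩ := exists_isospectral ((adData_UG hb hρ).along he.comap_K0) D'
    (fun p => co_K0 b' p) (exists_goodLev hb') (l := l13) (q := ⟨2, Nat.prime_two⟩)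
    (fun h => absurd (congrArg Subtype.val h) (by norm_num [l13])) (hecke_UG hb'.ne)
    (ε := eps S') (fun p => by unfold eps; split_ifs <;> simp)
    (S'.finite_toSet.subset fun p hp => by
      by_contra h
      exact hp (if_neg h)) (if_neg hl) (Rg := Reg) (Rg' := Reg)
    (fun γ h => reg_of_local (he.reg hl h)) (fun γ h => reg_of_local h)
    (matching hb hb' he hS hρ hρ')
    (AdMatch.along he.comap_K0 (matching hb' hb (he.symm hb.ne hb'.ne) hS' hρ' hρ))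
  rw [gam_along] at c₁ hI
  have hK₁ := Level.comap he.comap_K0 hK
  exact ⟨_, _, c₁, c₂, isArith_gam hb.ne hρ hK₁, isArith_gam hb'.ne hρ' hK, hI,
    not_wideComm hb.ne hb'.ne hρ hρ' hK₁ hK (fun K hK => D'.opn K hK l13) h₁ h₂⟩

end Pool.Agent.P.MP_3c2f8c_gt.Ex
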