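import Pool.Agent.P.MP_3c2f8c_gt.Ex.SDefs
import Pool.Agent.P.MP_3c2f8c_gt.Ex.Main

/-!
The main theorem in type `E₆`, for the definitions of `SDefs`, which unfold to those of `Defs`.
-/

namespace Pool.Agent.P.MP_3c2f8c_gt.St

theorem isClosedMfd_iff (Γ : Subgroup E6) : IsClosedMfd Γ ↔ Ex.IsClosedMfd Γ := Iff.rfl

theorem isArith_iff (Γ : Subgroup E6) : IsArith Γ ↔ Ex.IsArith Γ := Iff.rfl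

theorem eig_eq (Γ : Subgroup E6) (ev : ℝ) : Eig Γ ev = Ex.Eig Γ ev := rfl

theorem isospectral_iff (Γ₁ Γ₂ : Subgroup E6) : Isospectral Γ₁ Γ₂ ↔ Ex.Isospectral Γ₁ Γ₂ :=
  Iff.rfl

theorem wideComm_iff (Γ₁ Γ₂ : Subgroup E6) : WideComm Γ₁ Γ₂ ↔ Ex.WideComm Γ₁ Γ₂ := Iff.rfl

theorem main : ∃ Γ₁ Γ₂ : Subgroup E6, IsClosedMfd Γ₁ ∧ IsClosedMfd Γ₂ ∧ IsArith Γ₁ ∧ IsArith Γ₂ ∧
    Isospectral Γ₁ Γ₂ ∧ ¬ WideComm Γ₁ Γ₂ := by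
  obtain ⟨Γ₁, Γ₂, h1, h2, h3, h4, h5, h6⟩ := Ex.main
  exact ⟨Γ₁, Γ₂, (isClosedMfd_iff _).2 h1, (isClosedMfd_iff _).2 h2, (isArith_iff _).2 h3,
    (isArith_iff _).2 h4, (isospectral_iff _ _).2 h5, fun h => h6 ((wideComm_iff _ _).1 h)⟩

end Pool.Agent.P.MP_3c2f8c_gt.St
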