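import Pool.Agent.P.MP_3c2f8c_gt.Ex.Alb

/-!
The combinatorics of the 27 weights and the 45 triples of the split model.
-/

namespace Pool.Agent.P.MP_3c2f8c_gt.Ex

/-- The number of an index. -/
def enc : I → ℕ
  | .inl i => i.val
  | .inr j => 3 + 8 * j.1.val + j.2.val

/-- The index with a given number. -/
def dec (k : ℕ) : I :=
  if k < 3 then .inl (Fin.ofNat 3 k) else .inr (Fin.ofNat 3 ((k - 3) / 8), Fin.ofNat 8 (k - 3))

/-- The table of third points, five bits for each pair; 31 marks the pairs in no triple. -/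
def thdT : ℕ := 0x1ffffffffc4afffe941ff27359fffff3fffffffc5fffcdf3a07ffffff7c25ffbadffffffffc5ff94ff4fc7fffdff8fe5f6d7fffffffffc5f2213fffc7ffc23fffe4ca7fff17ffffffff57fff215315ffff637f9fffff17ffffffff57c9f3221f5fd9f77f1ffffff17ffffffff514df3bfff5b5dffdfff17fffffffff98a4fffe3fffff8c1ebd7fea3149fffffffffffffc3affff9c5fff5ffff3a15ff9bffffc3fffedfbe27ffffeeffcff4fd5f2ffffffc3ffd6ffcfe7fffdbffa13fffd44fffffffc3fa633fffe7ffb3e91ffff217ff0fffffffffd7fffa573f8fd1f1fc9f37fff0fffffffffd7e9fb63f0f9fff194dffffff0fffffffffd56dfbfdfffffff4a0e30ffffffffffdab4ffff3fcbf2ffff183ffab569fffffffffffffc1ff8ddf7c17ffffffbe35ffdbffffc1ffffff335ff8fd7fffeffcff5faffffffc1ffffe56423fffd7ffe33ffff54fffffffc1fffc9f97fff636399ffffa57ff07fffffffffa7ff97d9f7431f9fe9fb7fff07ffffffff47fff935df7dfff9d6dffffff07ffffffe7fb9acfffebfffffce2f307ffffffffffd53b5699c5f5fffffffffffffffffffff007fffffffffd6e6b2307cbfffffffffc1f17fffffffffffffffffff8cc5225075045f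

/-- The table of signs. -/
def sgT : ℕ := 0x2000100080400008200004020000040800020080002040800000800020084000802000080200040008000400800200400020008000400000248040000820000402000004080002008000204000000080302000000204000000408

/-- The entry of the table of third points. -/
def thdN (a b : I) : ℕ := (thdT >>> (5 * (27 * enc a + enc b))) % 32

/-- `a` and `b` lie in a common triple. -/
def Adj (a b : I) : Prop := thdN a b ≠ 31

instance (a b : I) : Decidable (Adj a b) := inferInstanceAs (Decidable (_ ≠ _))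

/-- The third point of the triple through `a` and `b`. -/
def thd (a b : I) : I := dec (thdN a b)

/-- The sign of the triple through `a` and `b`. -/
def sg (a b : I) : ℤ := if (sgT >>> (27 * enc a + enc b)) % 2 = 1 then -1 else 1

/-- `a, b, c` form a triple. -/
def Tr (a b c : I) : Prop := Adj a b ∧ c = thd a b

instance (a b c : I) : Decidable (Tr a b c) := inferInstanceAs (Decidable (_ ∧ _))

/-- The weights in a basis of the character lattice of rank seven; the last basis vector is the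
sum of any triple. -/
def wt : I → Fin 7 → ℤ := Sum.elim
  ![![1, 0, 0, 0, 0, 0, 0], ![0, 1, 0, 0, 0, 0, 0], ![-1, -1, 0, 0, 0, 0, 1]]
  fun j => ![![![0, 0, 1, 0, 0, 0, 0], ![0, 0, 0, 1, 0, 0, 0], ![0, 0, 0, 0, 1, 0, 0], ![-1, 1, 1, -1, -1, 2, 0],
    ![-1, 0, 0, -1, 0, 0, 1], ![-1, 0, 0, 0, -1, 0, 1], ![0, -1, -1, 1, 1, -2, 1], ![-1, 0, -1, 0, 0, 0, 1]],
   ![![0, 0, 0, 0, 0, 1, 0], ![0, -1, -1, 1, 0, -1, 1], ![0, -1, -1, 0, 1, -1, 1], ![-1, 0, 0, -1, -1, 1, 1],
    ![0, 0, 1, -1, 0, 1, 0], ![0, 0, 1, 0, -1, 1, 0], ![1, -1, 0, 1, 1, -1, 0], ![0, -1, 0, 0, 0, -1, 1]],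
   ![![0, 0, -1, 0, 0, -1, 1], ![1, 0, 0, 1, 0, -1, 0], ![1, 0, 0, 0, 1, -1, 0], ![0, 1, 1, -1, -1, 1, 0],
    ![0, 1, 0, -1, 0, 1, 0], ![0, 1, 0, 0, -1, 1, 0], ![1, 0, -1, 1, 1, -1, 0], ![1, 1, 1, 0, 0, 1, -1]]] j.1 j.2

/-- The six weights that are the first six basis vectors. -/
def wb : Fin 6 → I := ![.inl 0, .inl 1, .inr (0, 0), .inr (0, 1), .inr (0, 2), .inr (1, 0)]

/-- A generic integral vector whose sum over every triple is one. -/
def lv : I → ℤ := Sum.elim ![21, 44, -64]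
  fun j => ![![-16, 59, -13, -33, -79, -7, 13, -4], ![3, 29, -43, -63, -72, 0, 20, -46],
    ![14, 77, 5, -15, -12, 60, 80, 51]] j.1 j.2

theorem nZ0_eq : ∀ a b c, nZ0 a b c = if Tr a b c then sg a b else 0 := by decide +kernel

theorem sg_sq : ∀ a b, sg a b * sg a b = 1 := by decide +kernel

theorem Adj.symm : ∀ {a b}, Adj a b → Adj b a := by decide +kernel

theorem not_adj_self : ∀ a, ¬ Adj a a := by decide +kernel

theorem thd_spec : ∀ a b, Adj a b → thd b a = thd a b ∧ Adj a (thd a b) ∧ thd a (thd a b) = b ∧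
    sg b a = sg a b ∧ sg a (thd a b) = sg a b := by decide +kernel

theorem card_adj : ∀ a, (Finset.univ.filter fun b => Adj a b).card = 10 := by decide +kernel

/-- A point outside a triple is adjacent to exactly one point of the triple. -/
theorem gq : ∀ a b d, Adj a b → d ≠ a → d ≠ b → d ≠ thd a b →
    (Adj d a ∧ ¬ Adj d b ∧ ¬ Adj d (thd a b)) ∨ (¬ Adj d a ∧ Adj d b ∧ ¬ Adj d (thd a b)) ∨
      (¬ Adj d a ∧ ¬ Adj d b ∧ Adj d (thd a b)) := by decide +kernel

theorem wt_tr : ∀ a b, Adj a b → ∀ j, wt a j + wt b j + wt (thd a b) j = if j = 6 then 1 else 0 := by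
  decide +kernel

theorem wt_wb : ∀ (i : Fin 6) (j : Fin 7), wt (wb i) j = if j = i.castSucc then 1 else 0 := by
  decide +kernel

theorem lv_sum_iff : ∀ a b c, lv a + lv b + lv c = 1 ↔ Tr a b c := by decide +kernel

theorem lv_injective : Function.Injective lv := by decide +kernel

theorem sum_lv : ∑ a, lv a = 9 := by decide +kernel

theorem tr_sh : ∀ a b, (Adj (sh a) (sh b) ↔ Adj a b) ∧
    (Adj a b → thd (sh a) (sh b) = sh (thd a b) ∧ sg (sh a) (sh b) = sg a b) := by decide +kernel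

end Pool.Agent.P.MP_3c2f8c_gt.Ex
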