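import Mathlib

/-!
The cubic algebra `R[η]`, `η³ + η² - 2η - 1 = 0`, with its automorphism `η ↦ η² - 2`.
-/

namespace Pool.Agent.P.MP_3c2f8c_gt.Ex

/-- The elements `c0 + c1 η + c2 η²`. -/
@[ext] structure Cub (R : Type) where
  c0 : R
  c1 : R
  c2 : R

namespace Cub

set_option linter.unusedSectionVars false
set_option linter.unnecessarySeqFocus false

variable {R S T : Type} [CommRing R] [CommRing S] [CommRing T]

instance : Zero (Cub R) := ⟨⟨0, 0, 0⟩⟩
instance : One (Cub R) := ⟨⟨1, 0, 0⟩⟩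
instance : Add (Cub R) := ⟨fun x y => ⟨x.c0 + y.c0, x.c1 + y.c1, x.c2 + y.c2⟩⟩
instance : Neg (Cub R) := ⟨fun x => ⟨-x.c0, -x.c1, -x.c2⟩⟩
instance : Sub (Cub R) := ⟨fun x y => ⟨x.c0 - y.c0, x.c1 - y.c1, x.c2 - y.c2⟩⟩
instance : Mul (Cub R) := ⟨fun x y =>
  ⟨x.c0 * y.c0 + (x.c1 * y.c2 + x.c2 * y.c1) - x.c2 * y.c2,
    x.c0 * y.c1 + x.c1 * y.c0 + 2 * (x.c1 * y.c2 + x.c2 * y.c1) - x.c2 * y.c2,
    x.c0 * y.c2 + x.c1 * y.c1 + x.c2 * y.c0 - (x.c1 * y.c2 + x.c2 * y.c1) + 3 * (x.c2 * y.c2)⟩⟩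
instance {A : Type} [SMul A R] : SMul A (Cub R) := ⟨fun a x => ⟨a • x.c0, a • x.c1, a • x.c2⟩⟩
instance : NatCast (Cub R) := ⟨fun n => ⟨n, 0, 0⟩⟩
instance : IntCast (Cub R) := ⟨fun n => ⟨n, 0, 0⟩⟩

@[simp] theorem zero_c0 : (0 : Cub R).c0 = 0 := rfl
@[simp] theorem zero_c1 : (0 : Cub R).c1 = 0 := rfl
@[simp] theorem zero_c2 : (0 : Cub R).c2 = 0 := rfl
@[simp] theorem one_c0 : (1 : Cub R).c0 = 1 := rfl
@[simp] theorem one_c1 : (1 : Cub R).c1 = 0 := rfl
@[simp] theorem one_c2 : (1 : Cub R).c2 = 0 := rfl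
@[simp] theorem add_c0 (x y : Cub R) : (x + y).c0 = x.c0 + y.c0 := rfl
@[simp] theorem add_c1 (x y : Cub R) : (x + y).c1 = x.c1 + y.c1 := rfl
@[simp] theorem add_c2 (x y : Cub R) : (x + y).c2 = x.c2 + y.c2 := rfl
@[simp] theorem neg_c0 (x : Cub R) : (-x).c0 = -x.c0 := rfl
@[simp] theorem neg_c1 (x : Cub R) : (-x).c1 = -x.c1 := rfl
@[simp] theorem neg_c2 (x : Cub R) : (-x).c2 = -x.c2 := rfl
@[simp] theorem sub_c0 (x y : Cub R) : (x - y).c0 = x.c0 - y.c0 := rfl
@[simp] theorem sub_c1 (x y : Cub R) : (x - y).c1 = x.c1 - y.c1 := rfl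
@[simp] theorem sub_c2 (x y : Cub R) : (x - y).c2 = x.c2 - y.c2 := rfl
@[simp] theorem mul_c0 (x y : Cub R) :
    (x * y).c0 = x.c0 * y.c0 + (x.c1 * y.c2 + x.c2 * y.c1) - x.c2 * y.c2 := rfl
@[simp] theorem mul_c1 (x y : Cub R) :
    (x * y).c1 = x.c0 * y.c1 + x.c1 * y.c0 + 2 * (x.c1 * y.c2 + x.c2 * y.c1) - x.c2 * y.c2 := rfl
@[simp] theorem mul_c2 (x y : Cub R) : (x * y).c2 =
    x.c0 * y.c2 + x.c1 * y.c1 + x.c2 * y.c0 - (x.c1 * y.c2 + x.c2 * y.c1) + 3 * (x.c2 * y.c2) := rfl
@[simp] theorem smul_c0 {A : Type} [SMul A R] (a : A) (x : Cub R) : (a • x).c0 = a • x.c0 := rfl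
@[simp] theorem smul_c1 {A : Type} [SMul A R] (a : A) (x : Cub R) : (a • x).c1 = a • x.c1 := rfl
@[simp] theorem smul_c2 {A : Type} [SMul A R] (a : A) (x : Cub R) : (a • x).c2 = a • x.c2 := rfl
@[simp] theorem natCast_c0 (n : ℕ) : (n : Cub R).c0 = n := rfl
@[simp] theorem natCast_c1 (n : ℕ) : (n : Cub R).c1 = 0 := rfl
@[simp] theorem natCast_c2 (n : ℕ) : (n : Cub R).c2 = 0 := rfl
@[simp] theorem intCast_c0 (n : ℤ) : (n : Cub R).c0 = n := rfl
@[simp] theorem intCast_c1 (n : ℤ) : (n : Cub R).c1 = 0 := rfl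
@[simp] theorem intCast_c2 (n : ℤ) : (n : Cub R).c2 = 0 := rfl

instance : AddCommGroup (Cub R) where
  add_assoc x y z := by ext <;> simp [add_assoc]
  zero_add x := by ext <;> simp
  add_zero x := by ext <;> simp
  add_comm x y := by ext <;> simp [add_comm]
  neg_add_cancel x := by ext <;> simp
  sub_eq_add_neg x y := by ext <;> simp [sub_eq_add_neg]
  nsmul n x := n • x
  nsmul_zero x := by ext <;> simp
  nsmul_succ n x := by ext <;> simp [add_mul]
  zsmul n x := n • x
  zsmul_zero' x := by ext <;> simp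
  zsmul_succ' n x := by ext <;> simp [add_mul]
  zsmul_neg' n x := by ext <;> simp [add_mul, add_comm]

instance : CommRing (Cub R) where
  mul_assoc x y z := by ext <;> simp <;> ring
  one_mul x := by ext <;> simp
  mul_one x := by ext <;> simp
  zero_mul x := by ext <;> simp
  mul_zero x := by ext <;> simp
  left_distrib x y z := by ext <;> simp <;> ring
  right_distrib x y z := by ext <;> simp <;> ring
  mul_comm x y := by ext <;> simp <;> ring
  natCast_zero := by ext <;> simp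
  natCast_succ n := by ext <;> simp
  intCast_ofNat n := by ext <;> simp
  intCast_negSucc n := by ext <;> simp

/-- The inclusion of the base ring. -/
def C : R →+* Cub R where
  toFun r := ⟨r, 0, 0⟩
  map_one' := rfl
  map_mul' x y := by ext <;> simp
  map_zero' := rfl
  map_add' x y := by ext <;> simp

@[simp] theorem C_c0 (r : R) : (C r).c0 = r := rfl
@[simp] theorem C_c1 (r : R) : (C r).c1 = 0 := rfl
@[simp] theorem C_c2 (r : R) : (C r).c2 = 0 := rfl

instance {A : Type} [CommSemiring A] [Algebra A R] : Algebra A (Cub R) where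
  algebraMap := C.comp (algebraMap A R)
  commutes' r x := mul_comm _ _
  smul_def' r x := by ext <;> simp [Algebra.smul_def]

theorem algebraMap_eq {A : Type} [CommSemiring A] [Algebra A R] (a : A) :
    algebraMap A (Cub R) a = C (algebraMap A R a) := rfl

instance {A B : Type} [SMul A B] [SMul A R] [SMul B R] [IsScalarTower A B R] :
    IsScalarTower A B (Cub R) := ⟨fun a b x => by ext <;> simp⟩

/-- The generator. -/
def eta : Cub R := ⟨0, 1, 0⟩

theorem eta_root : (eta : Cub R) ^ 3 + eta ^ 2 - 2 * eta - 1 = 0 := by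
  have h : (2 : Cub R) = 1 + 1 := by norm_num
  rw [h]
  ext <;> simp [eta, pow_succ] <;> ring

/-- The automorphism `η ↦ η² - 2`. -/
def sig : Cub R ≃+* Cub R where
  toFun x := ⟨x.c0 - 2 * x.c1 + 3 * x.c2, -x.c2, x.c1 - x.c2⟩
  invFun x := ⟨x.c0 + x.c1 + 2 * x.c2, -x.c1 + x.c2, -x.c1⟩
  left_inv x := by ext <;> simp <;> ring
  right_inv x := by ext <;> simp <;> ring
  map_mul' x y := by ext <;> simp <;> ring
  map_add' x y := by ext <;> simp <;> ring

@[simp] theorem sig_c0 (x : Cub R) : (sig x).c0 = x.c0 - 2 * x.c1 + 3 * x.c2 := rfl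
@[simp] theorem sig_c1 (x : Cub R) : (sig x).c1 = -x.c2 := rfl
@[simp] theorem sig_c2 (x : Cub R) : (sig x).c2 = x.c1 - x.c2 := rfl

theorem sig_sig_sig (x : Cub R) : sig (sig (sig x)) = x := by ext <;> simp <;> ring

@[simp] theorem sig_C (r : R) : sig (C r) = C r := by ext <;> simp

/-- Base change. -/
def map (f : R →+* S) : Cub R →+* Cub S where
  toFun x := ⟨f x.c0, f x.c1, f x.c2⟩
  map_one' := by ext <;> simp
  map_mul' x y := by ext <;> simp [map_ofNat]
  map_zero' := by ext <;> simp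
  map_add' x y := by ext <;> simp

@[simp] theorem map_c0 (f : R →+* S) (x : Cub R) : (map f x).c0 = f x.c0 := rfl
@[simp] theorem map_c1 (f : R →+* S) (x : Cub R) : (map f x).c1 = f x.c1 := rfl
@[simp] theorem map_c2 (f : R →+* S) (x : Cub R) : (map f x).c2 = f x.c2 := rfl

theorem map_sig (f : R →+* S) (x : Cub R) : map f (sig x) = sig (map f x) := by
  ext <;> simp [map_ofNat]

@[simp] theorem map_C (f : R →+* S) (r : R) : map f (C r) = C (f r) := by ext <;> simp

/-- Evaluation at a root `θ` of `X³ + X² - 2X - 1`. -/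
def lift (f : R →+* S) (θ : S) (h : θ ^ 3 + θ ^ 2 - 2 * θ - 1 = 0) : Cub R →+* S where
  toFun x := f x.c0 + f x.c1 * θ + f x.c2 * θ ^ 2
  map_one' := by simp
  map_mul' x y := by
    simp only [mul_c0, mul_c1, mul_c2, map_add, map_sub, map_mul, map_ofNat]
    linear_combination (-(f x.c1 * f y.c2 + f x.c2 * f y.c1) - f x.c2 * f y.c2 * (θ - 1)) * h
  map_zero' := by simp
  map_add' x y := by
    simp only [add_c0, add_c1, add_c2, map_add]
    ring

theorem lift_apply (f : R →+* S) (θ : S) (h : θ ^ 3 + θ ^ 2 - 2 * θ - 1 = 0) (x : Cub R) :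
    lift f θ h x = f x.c0 + f x.c1 * θ + f x.c2 * θ ^ 2 := rfl

/-- The norm. -/
def nrm (x : Cub R) : R := (x * sig x * sig (sig x)).c0

theorem C_nrm (x : Cub R) : C (nrm x) = x * sig x * sig (sig x) := by
  ext <;> simp [nrm] <;> ring

/-- The coordinates. -/
def co (x : Cub R) : Fin 3 → R := ![x.c0, x.c1, x.c2]

theorem co_injective : Function.Injective (co : Cub R → Fin 3 → R) := fun _ _ h =>
  Cub.ext (congrFun h 0) (congrFun h 1) (congrFun h 2)

instance [TopologicalSpace R] : TopologicalSpace (Cub R) :=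
  TopologicalSpace.induced co inferInstance

theorem isInducing_co [TopologicalSpace R] : Topology.IsInducing (co : Cub R → Fin 3 → R) := ⟨rfl⟩

theorem continuous_c0 [TopologicalSpace R] : Continuous (c0 : Cub R → R) :=
  (continuous_apply 0).comp isInducing_co.continuous

theorem continuous_c1 [TopologicalSpace R] : Continuous (c1 : Cub R → R) :=
  (continuous_apply 1).comp isInducing_co.continuous

theorem continuous_c2 [TopologicalSpace R] : Continuous (c2 : Cub R → R) :=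
  (continuous_apply 2).comp isInducing_co.continuous

theorem continuous_iff [TopologicalSpace R] {X : Type} [TopologicalSpace X] {f : X → Cub R} :
    Continuous f ↔ (Continuous fun x => (f x).c0) ∧ (Continuous fun x => (f x).c1) ∧
      Continuous fun x => (f x).c2 := by
  refine ⟨fun h => ⟨continuous_c0.comp h, continuous_c1.comp h, continuous_c2.comp h⟩,
    fun h => isInducing_co.continuous_iff.2 (continuous_pi fun i => ?_)⟩
  fin_cases i
  exacts [h.1, h.2.1, h.2.2]

instance [TopologicalSpace R] [IsTopologicalRing R] : IsTopologicalRing (Cub R) where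
  continuous_add := by
    have h0 := continuous_c0 (R := R)
    have h1 := continuous_c1 (R := R)
    have h2 := continuous_c2 (R := R)
    refine continuous_iff.2 ⟨?_, ?_, ?_⟩ <;> simp only [add_c0, add_c1, add_c2] <;> fun_prop
  continuous_mul := by
    have h0 := continuous_c0 (R := R)
    have h1 := continuous_c1 (R := R)
    have h2 := continuous_c2 (R := R)
    refine continuous_iff.2 ⟨?_, ?_, ?_⟩ <;> simp only [mul_c0, mul_c1, mul_c2] <;> fun_prop
  continuous_neg := by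
    have h0 := continuous_c0 (R := R)
    have h1 := continuous_c1 (R := R)
    have h2 := continuous_c2 (R := R)
    refine continuous_iff.2 ⟨?_, ?_, ?_⟩ <;> simp only [neg_c0, neg_c1, neg_c2] <;> fun_prop

theorem nrm_eq (x : Cub R) : nrm x = x.c0 ^ 3 + x.c1 ^ 3 + x.c2 ^ 3 - x.c0 ^ 2 * x.c1 +
    5 * x.c0 ^ 2 * x.c2 - 2 * x.c0 * x.c1 ^ 2 + 6 * x.c0 * x.c2 ^ 2 - x.c1 ^ 2 * x.c2 -
    2 * x.c1 * x.c2 ^ 2 - x.c0 * x.c1 * x.c2 := by
  simp [nrm]
  ring

theorem nrm_int_ne_zero : ∀ (k : ℕ) (x : Cub ℤ), x.c0.natAbs + x.c1.natAbs + x.c2.natAbs ≤ k →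
    nrm x = 0 → x = 0 := by
  intro k
  induction k with
  | zero =>
    intro x h _
    ext <;> simp only [zero_c0, zero_c1, zero_c2] <;> omega
  | succ k ih =>
    intro x h h0
    have h2 : ∀ a b c : ZMod 2, a ^ 3 + b ^ 3 + c ^ 3 - a ^ 2 * b + 5 * a ^ 2 * c - 2 * a * b ^ 2 +
        6 * a * c ^ 2 - b ^ 2 * c - 2 * b * c ^ 2 - a * b * c = 0 → a = 0 ∧ b = 0 ∧ c = 0 := by
      decide
    have h3 := h2 x.c0 x.c1 x.c2 (by
      have := congrArg (Int.cast : ℤ → ZMod 2) h0
      rw [nrm_eq] at this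
      push_cast at this
      exact this)
    simp only [ZMod.intCast_zmod_eq_zero_iff_dvd] at h3
    obtain ⟨⟨a, ha⟩, ⟨b, hb⟩, ⟨c, hc⟩⟩ := h3
    by_cases hx : a = 0 ∧ b = 0 ∧ c = 0
    · ext <;> simp [ha, hb, hc, hx]
    · have := ih ⟨a, b, c⟩ (by simp only; push_cast at ha hb hc; omega) (by
        rw [nrm_eq] at h0 ⊢
        rw [ha, hb, hc] at h0
        push_cast at h0
        simp only
        linarith)
      exact absurd ⟨congrArg c0 this, congrArg c1 this, congrArg c2 this⟩ hx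

theorem nrm_rat_ne_zero {x : Cub ℚ} (hx : x ≠ 0) : nrm x ≠ 0 := fun h => by
  set d : ℤ := x.c0.den * x.c1.den * x.c2.den
  have hd : (d : ℚ) ≠ 0 := by
    simp only [d]
    push_cast
    positivity
  let y : Cub ℤ := ⟨x.c0.num * x.c1.den * x.c2.den, x.c0.den * x.c1.num * x.c2.den,
    x.c0.den * x.c1.den * x.c2.num⟩
  have e0 : (y.c0 : ℚ) = d * x.c0 := by
    simp only [y, d]
    push_cast
    rw [← Rat.mul_den_eq_num x.c0]
    ring
  have e1 : (y.c1 : ℚ) = d * x.c1 := by
    simp only [y, d]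
    push_cast
    rw [← Rat.mul_den_eq_num x.c1]
    ring
  have e2 : (y.c2 : ℚ) = d * x.c2 := by
    simp only [y, d]
    push_cast
    rw [← Rat.mul_den_eq_num x.c2]
    ring
  have h1 : nrm y = 0 := by
    have : ((nrm y : ℤ) : ℚ) = d ^ 3 * nrm x := by
      rw [nrm_eq, nrm_eq]
      push_cast
      rw [e0, e1, e2]
      ring
    rw [h, mul_zero] at this
    exact_mod_cast this
  have h2 := nrm_int_ne_zero _ y le_rfl h1
  rw [h2] at e0 e1 e2
  apply hx
  ext
  · simpa [hd] using e0.symm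
  · simpa [hd] using e1.symm
  · simpa [hd] using e2.symm

instance : Nontrivial (Cub ℚ) := ⟨⟨0, 1, fun h => zero_ne_one (congrArg c0 h)⟩⟩

instance : Field (Cub ℚ) where
  inv x := (nrm x)⁻¹ • (sig x * sig (sig x))
  mul_inv_cancel x hx := by
    change x * ((nrm x)⁻¹ • (sig x * sig (sig x))) = 1
    rw [mul_smul_comm, ← mul_assoc, ← C_nrm]
    ext <;> simp [nrm_rat_ne_zero hx]
  inv_zero := by
    change (nrm (0 : Cub ℚ))⁻¹ • (sig 0 * sig (sig 0)) = 0
    simp
  nnratCast q := C (q : ℚ)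
  ratCast q := C q
  nnqsmul q x := q • x
  qsmul q x := q • x
  nnratCast_def q := by
    change C (q : ℚ) = (q.num : Cub ℚ) * ((nrm (q.den : Cub ℚ))⁻¹ •
      (sig (q.den : Cub ℚ) * sig (sig (q.den : Cub ℚ))))
    have hd : (q.den : ℚ) ≠ 0 := by exact_mod_cast q.den_ne_zero
    ext <;> simp [nrm_eq]
    rw [NNRat.cast_def]
    field_simp
  ratCast_def q := by
    change C q = (q.num : Cub ℚ) * ((nrm (q.den : Cub ℚ))⁻¹ •
      (sig (q.den : Cub ℚ) * sig (sig (q.den : Cub ℚ))))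
    have hd : (q.den : ℚ) ≠ 0 := by exact_mod_cast q.den_ne_zero
    ext <;> simp [nrm_eq]
    field_simp
    exact Rat.mul_den_eq_num q
  nnqsmul_def q x := by
    change q • x = C (q : ℚ) * x
    ext <;> simp [NNRat.smul_def]
  qsmul_def q x := by
    change q • x = C q * x
    ext <;> simp

instance : CharZero (Cub ℚ) := ⟨fun a b h => by simpa using congrArg c0 h⟩

example : (DivisionRing.toRatAlgebra : Algebra ℚ (Cub ℚ)) = instAlgebra := rfl

/-- The coordinates as a linear equivalence. -/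
def coEquiv (R : Type) [CommRing R] : Cub R ≃ₗ[R] (Fin 3 → R) where
  toFun := co
  invFun v := ⟨v 0, v 1, v 2⟩
  left_inv _ := rfl
  right_inv v := by
    funext i
    fin_cases i <;> rfl
  map_add' x y := by
    funext i
    fin_cases i <;> rfl
  map_smul' c x := by
    funext i
    fin_cases i <;> rfl

instance : Module.Finite R (Cub R) := Module.Finite.equiv (coEquiv R).symm

instance : Module.Free R (Cub R) := Module.Free.of_equiv (coEquiv R).symm

instance : NumberField (Cub ℚ) where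
  to_finiteDimensional := Module.Finite.equiv (coEquiv ℚ).symm

theorem finrank_rat : Module.finrank ℚ (Cub ℚ) = 3 := by
  rw [(coEquiv ℚ).finrank_eq]
  simp

end Cub

end Pool.Agent.P.MP_3c2f8c_gt.Ex
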