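import Pool.Agent.P.MP_3c2f8c_gt.Ex.AlbA
import Pool.Agent.P.MP_3c2f8c_gt.Ex.Cub
import Pool.Agent.P.MP_3c2f8c_gt.Ex.Comb
import Pool.Agent.P.MP_3c2f8c_gt.Gl.FDefs

/-!
The groups of points of the twisted forms, their local and real components, and the arithmetic
conditions on the parameter `b`.
-/

namespace Pool.Agent.P.MP_3c2f8c_gt.Ex

open Matrix Polynomial

section Groups

variable (b : ℚ) (R S : Type) [CommRing R] [Algebra ℚ R] [CommRing S] [Algebra ℚ S]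

/-- The matrix `phi b` over a `ℚ`-algebra. -/
def ph : Matrix I I R := phi (algebraMap ℚ R b)

variable {R S} in
theorem ph_map (f : R →+* S) : (ph b R).map f = ph b S := by
  rw [ph, phi_map, RingHom.map_rat_algebraMap, ph]

/-- The similitudes over the cubic algebra that commute with the semilinear map `φ σ`. -/
def Gt : Subgroup (GL I (Cub R)) where
  carrier := {g | g ∈ Str (nJ (Cub R)) ∧ g.1 * ph b (Cub R) = ph b (Cub R) * g.1.map Cub.sig}
  one_mem' := ⟨one_mem _, by simp⟩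
  mul_mem' := by
    rintro g h ⟨hg, hg'⟩ ⟨hh, hh'⟩
    refine ⟨mul_mem hg hh, ?_⟩
    rw [Units.val_mul, Matrix.map_mul, Matrix.mul_assoc, hh', ← Matrix.mul_assoc, hg',
      Matrix.mul_assoc]
  inv_mem' := by
    rintro g ⟨hg, hg'⟩
    refine ⟨inv_mem hg, ?_⟩
    have h1 : (g⁻¹).1 * g.1 = 1 := by rw [← Units.val_mul, inv_mul_cancel, Units.val_one]
    have h2 : g.1.map Cub.sig * (g⁻¹).1.map Cub.sig = 1 := by
      rw [← Matrix.map_mul, ← Units.val_mul, mul_inv_cancel]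
      simp
    calc (g⁻¹).1 * ph b (Cub R)
        = (g⁻¹).1 * ph b (Cub R) * (g.1.map Cub.sig * (g⁻¹).1.map Cub.sig) := by
          rw [h2, Matrix.mul_one]
      _ = (g⁻¹).1 * (ph b (Cub R) * g.1.map Cub.sig) * (g⁻¹).1.map Cub.sig := by
          simp only [Matrix.mul_assoc]
      _ = ph b (Cub R) * (g⁻¹).1.map Cub.sig := by
          rw [← hg', ← Matrix.mul_assoc, h1, Matrix.one_mul]

/-- The scalar matrices in a group of matrices over an `R`-algebra `A`. -/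
def Scal (R : Type) {A : Type} [CommRing R] [CommRing A] [Algebra R A] (G : Subgroup (GL I A)) :
    Subgroup G where
  carrier := {g | ∃ t : Rˣ, g.1.1 = (t : R) • (1 : Matrix I I A)}
  one_mem' := ⟨1, by simp⟩
  mul_mem' := by
    rintro g h ⟨t, ht⟩ ⟨s, hs⟩
    exact ⟨t * s, by simp [ht, hs, smul_smul, mul_comm]⟩
  inv_mem' := by
    rintro g ⟨t, ht⟩
    refine ⟨t⁻¹, ?_⟩
    have h : (g⁻¹).1.1 * g.1.1 = 1 := by
      rw [← Units.val_mul, ← Subgroup.coe_mul, inv_mul_cancel]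
      rfl
    rw [ht, Matrix.mul_smul, Matrix.mul_one] at h
    rw [← h, smul_smul, Units.inv_mul, one_smul]

instance (R : Type) {A : Type} [CommRing R] [CommRing A] [Algebra R A] (G : Subgroup (GL I A)) :
    (Scal R G).Normal := ⟨by
  rintro g ⟨t, ht⟩ h
  refine ⟨t, ?_⟩
  rw [Subgroup.coe_mul, Subgroup.coe_mul, Units.val_mul, Units.val_mul, ht, Matrix.mul_smul,
    Matrix.mul_one, Matrix.smul_mul, ← Units.val_mul, ← Subgroup.coe_mul, mul_inv_cancel]
  rfl⟩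

/-- The points of the adjoint group. -/
abbrev UG : Type := Gt b R ⧸ Scal R (Gt b R)

/-- The points of the split adjoint group. -/
abbrev UZ (R : Type) [CommRing R] : Type := Str (nZ R) ⧸ Scal R (Str (nZ R))

variable {R S}

/-- Base change of invertible matrices. -/
abbrev glmap {A B : Type} [CommRing A] [CommRing B] (f : A →+* B) : GL I A →* GL I B :=
  Units.map (f.mapMatrix : Matrix I I A →+* Matrix I I B).toMonoidHom

/-- Base change of similitudes. -/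
def gmap (f : R →+* S) : Gt b R →* Gt b S :=
  ((glmap (Cub.map f)).comp (Gt b R).subtype).codRestrict _ fun g => by
    obtain ⟨⟨ν, hν⟩, hg⟩ := g.2
    refine ⟨⟨Units.map (Cub.map f).toMonoidHom ν, ?_⟩, ?_⟩
    · simpa using hν.map (Cub.map f)
    · have h := congrArg (fun X => X.map (Cub.map f)) hg
      simp only [Matrix.map_mul, ph_map, Matrix.map_map] at h
      refine h.trans ?_
      congr 1
      ext1 i j
      exact Cub.map_sig f _

theorem gmap_val (f : R →+* S) (g : Gt b R) : (gmap b f g).1.1 = g.1.1.map (Cub.map f) := rfl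

/-- Base change of points of the adjoint group. -/
def umap (f : R →+* S) : UG b R →* UG b S :=
  QuotientGroup.map _ _ (gmap b f) (by
    rintro g ⟨t, ht⟩
    refine ⟨Units.map f.toMonoidHom t, ?_⟩
    rw [gmap_val, ht]
    ext1 i j
    by_cases h : i = j <;> ext <;> simp [h])

theorem umap_mk (f : R →+* S) (g : Gt b R) :
    umap b f (QuotientGroup.mk g) = QuotientGroup.mk (gmap b f g) := rfl

end Groups

section Local

variable {p : ℕ} [Fact p.Prime]

/-- Integral elements of the cubic algebra over `ℚ_p`. -/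
def IntC (x : Cub ℚ_[p]) : Prop := ‖x.c0‖ ≤ 1 ∧ ‖x.c1‖ ≤ 1 ∧ ‖x.c2‖ ≤ 1

theorem IntC.add {x y : Cub ℚ_[p]} (hx : IntC x) (hy : IntC y) : IntC (x + y) :=
  ⟨(Padic.nonarchimedean _ _).trans (max_le hx.1 hy.1),
    (Padic.nonarchimedean _ _).trans (max_le hx.2.1 hy.2.1),
    (Padic.nonarchimedean _ _).trans (max_le hx.2.2 hy.2.2)⟩

theorem IntC.mul {x y : Cub ℚ_[p]} (hx : IntC x) (hy : IntC y) : IntC (x * y) := by
  let x' : Cub ℤ_[p] := ⟨⟨x.c0, hx.1⟩, ⟨x.c1, hx.2.1⟩, ⟨x.c2, hx.2.2⟩⟩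
  let y' : Cub ℤ_[p] := ⟨⟨y.c0, hy.1⟩, ⟨y.c1, hy.2.1⟩, ⟨y.c2, hy.2.2⟩⟩
  have h : x * y = Cub.map (algebraMap ℤ_[p] ℚ_[p]) (x' * y') := by
    rw [map_mul]
    rfl
  rw [h]
  exact ⟨(x' * y').c0.2, (x' * y').c1.2, (x' * y').c2.2⟩

theorem intC_zero : IntC (0 : Cub ℚ_[p]) := by simp [IntC]

theorem intC_one : IntC (1 : Cub ℚ_[p]) := by simp [IntC]

/-- Integral matrices. -/
def IntX (g : Matrix I I (Cub ℚ_[p])) : Prop := ∀ a c, IntC (g a c)

theorem IntX.mul {g h : Matrix I I (Cub ℚ_[p])} (hg : IntX g) (hh : IntX h) : IntX (g * h) :=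
  fun a c => by
  rw [Matrix.mul_apply]
  exact Finset.sum_induction _ IntC (fun _ _ => IntC.add) intC_zero fun k _ => (hg a k).mul (hh k c)

theorem intX_one : IntX (1 : Matrix I I (Cub ℚ_[p])) := fun a c => by
  rw [Matrix.one_apply]
  split_ifs
  exacts [intC_one, intC_zero]

/-- The integral invertible matrices with integral inverse. -/
def IntG (p : ℕ) [Fact p.Prime] : Subgroup (GL I (Cub ℚ_[p])) where
  carrier := {g | IntX g.1 ∧ IntX (g⁻¹).1}
  one_mem' := ⟨intX_one, by simpa using intX_one⟩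
  mul_mem' := fun {g h} hg hh => ⟨hg.1.mul hh.1, by
    simpa only [_root_.mul_inv_rev, Units.val_mul] using hh.2.mul hg.2⟩
  inv_mem' := fun {g} hg => ⟨hg.2, by simpa using hg.1⟩

/-- The standard compact open subgroup. -/
noncomputable def K0 (b : ℚ) (p : ℕ) [Fact p.Prime] : Subgroup (UG b ℚ_[p]) :=
  ((IntG p).subgroupOf (Gt b ℚ_[p])).map (QuotientGroup.mk' _)

/-- The family of standard compact open subgroups. -/
noncomputable abbrev Kst (b : ℚ) : ∀ p : Nat.Primes, Subgroup (UG b ℚ_[p]) := fun p => K0 b p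

/-- The diagonal map to the local groups. -/
noncomputable def Phi (b : ℚ) : UG b ℚ →* ∀ p : Nat.Primes, UG b ℚ_[p] :=
  MonoidHom.pi fun p => umap b (algebraMap ℚ ℚ_[p])

/-- `x` is the norm of a unit of the cubic algebra over `ℚ_p`. -/
def IsNrm (p : ℕ) [Fact p.Prime] (x : ℚ) : Prop := ∃ c : (Cub ℚ_[p])ˣ, Cub.nrm c.1 = (x : ℚ_[p])

/-- The norm form is anisotropic modulo `p`. -/
def Inert (p : ℕ) [Fact p.Prime] : Prop :=
  ∀ x : Cub ℚ_[p], ‖Cub.nrm x‖ = max ‖x.c0‖ (max ‖x.c1‖ ‖x.c2‖) ^ 3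

/-- The cyclic algebra with parameter `b` is an unramified division algebra at `p`. -/
def Div (p : ℕ) [Fact p.Prime] (b : ℚ) : Prop := Inert p ∧ ¬ (3 : ℤ) ∣ padicValRat p b

/-- The conditions on the parameter. -/
structure Good (b : ℚ) : Prop where
  ne : b ≠ 0
  loc : ∀ p : Nat.Primes, IsNrm p b ∨ Div p b
  div : ∃ p : Nat.Primes, Div p b

/-- The local isomorphisms `e p` are conjugations by similitudes, composed with the Cartan
involution at the primes in `S'`. -/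
def IsLink (b b' : ℚ) (S' : Finset Nat.Primes)
    (e : ∀ p : Nat.Primes, UG b ℚ_[p] ≃ₜ* UG b' ℚ_[p]) : Prop :=
  ∃ m : ∀ p : Nat.Primes, GL I (Cub ℚ_[p]), (∀ p : Nat.Primes, m p ∈ Str (nJ (Cub ℚ_[p]))) ∧
    {p : Nat.Primes | m p ∉ IntG p}.Finite ∧
    (∀ p : Nat.Primes, ∃ c : (Cub ℚ_[p])ˣ, (m p).1 * ph (if p ∈ S' then b⁻¹ else b) (Cub ℚ_[p]) =
      c.1 • (ph b' (Cub ℚ_[p]) * (m p).1.map Cub.sig)) ∧
    ∀ (p : Nat.Primes) (g : Gt b ℚ_[p]), ∃ g' : Gt b' ℚ_[p],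
      e p (QuotientGroup.mk g) = QuotientGroup.mk g' ∧
        g'.1 = m p * (if p ∈ S' then cartan g.1 else g.1) * (m p)⁻¹

/-- The idele equal to `b²` on `S'` and to `1` elsewhere is a rational times a norm. -/
def Bal (b : ℚ) (S' : Finset Nat.Primes) : Prop :=
  ∃ (y : ℚ) (ω : ∀ p : Nat.Primes, (Cub ℚ_[p])ˣ), y ≠ 0 ∧
    {p : Nat.Primes | ¬ (IntC (ω p).1 ∧ IntC ((ω p)⁻¹).1)}.Finite ∧
    ∀ p : Nat.Primes, (y : ℚ_[p]) * Cub.nrm (ω p).1 = if p ∈ S' then (b : ℚ_[p]) ^ 2 else 1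

/-- The auxiliary split prime. -/
def l13 : Nat.Primes := ⟨13, by norm_num⟩

instance : Fact (Nat.Prime 13) := ⟨by norm_num⟩

/-- The roots of `χ` have the norms `r * 13 ^ (c * lv a)`. -/
def RegP (χ : (PadicAlgCl 13)[X]) : Prop :=
  ∃ (lam : I → PadicAlgCl 13) (c : ℕ) (r : ℝ), 0 < c ∧ 0 < r ∧ χ = ∏ a, (X - C (lam a)) ∧
    ∀ a, ‖lam a‖ = r * (13 : ℝ) ^ ((c : ℤ) * lv a)

/-- Regular elements. -/
def Reg {b : ℚ} {R : Type} [CommRing R] [Algebra ℚ R] (γ : UG b R) : Prop :=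
  ∃ (g : Gt b R) (j : Cub R →+* PadicAlgCl 13), QuotientGroup.mk g = γ ∧
    RegP (g.1.1.charpoly.map j)

end Local

section Real

theorem exists_eta : ∃ θ : ℝ, θ ^ 3 + θ ^ 2 - 2 * θ - 1 = 0 := by
  have h := intermediate_value_Icc (f := fun θ : ℝ => θ ^ 3 + θ ^ 2 - 2 * θ - 1)
    (zero_le_two) (by fun_prop)
  obtain ⟨θ, -, hθ⟩ := h (show (0 : ℝ) ∈ Set.Icc _ _ by norm_num)
  exact ⟨θ, hθ⟩

/-- A real point of the cubic algebra. -/
noncomputable def iota : Cub ℝ →+* ℝ :=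
  Cub.lift (RingHom.id ℝ) exists_eta.choose exists_eta.choose_spec

/-- The real embedding of the cubic field. -/
noncomputable def iotaQ : Cub ℚ →+* ℝ := iota.comp (Cub.map (algebraMap ℚ ℝ))

/-- `ρ` is the identification of the real points of the adjoint group with `E6`. -/
def IsRho (b : ℚ) (ρ : UG b ℝ ≃* E6) : Prop :=
  ∀ g : Gt b ℝ, ∃ t : ℝ, (ρ (QuotientGroup.mk g)).1.1 = t • g.1.1.map iota

/-- The real component of the rational points. -/
noncomputable def rhoQ {b : ℚ} (ρ : UG b ℝ ≃* E6) : UG b ℚ →* E6 :=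
  ρ.toMonoidHom.comp (umap b (algebraMap ℚ ℝ))

end Real

end Pool.Agent.P.MP_3c2f8c_gt.Ex
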