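import Pool.Agent.P.MP_3c2f8c_gt.Ex.ADefs
import Pool.Agent.P.MP_3c2f8c_gt.Ex.BDefs
import Pool.Agent.Lib.CFT.LDefs

/-!
Definitions for the compactness and the matching arguments.
-/

namespace Pool.Agent.P.MP_3c2f8c_gt.Ex

open Matrix Pool.Agent.Lib.CFT
open scoped TensorProduct

/-- The multiplier of a point of the twisted group. -/
def Gt.nu {b : ℚ} {R : Type} [CommRing R] [Algebra ℚ R] (g : Gt b R) : R :=
  (Ex.nu (nJ (Cub R)) g.1.1).c0

/-- Integral vectors. -/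
def IntV {p : ℕ} [Fact p.Prime] (v : I → Cub ℚ_[p]) : Prop := ∀ a, IntC (v a)

/-- Vectors with coordinates bounded by `C`. -/
def BdV (C : ℝ) (v : I → Cub ℝ) : Prop := ∀ a i, |Cub.co (v a) i| ≤ C

/-- The image of a rational vector. -/
def vmap (k : Type) [CommRing k] [Algebra ℚ k] (v : I → Cub ℚ) : I → Cub k :=
  fun a => Cub.map (algebraMap ℚ k) (v a)

/-- An adelic point with normalised real component. -/
structure APt {b : ℚ} (u : ∀ p : Nat.Primes, Gt b ℚ_[p]) (n : ℚ) (h : Gt b ℝ) : Prop where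
  fin : {p : Nat.Primes | (u p).1 ∉ IntG p}.Finite
  hn : ∀ p : Nat.Primes, ‖Gt.nu (u p)‖ = ‖(n : ℚ_[p])‖
  hh : Gt.nu h = n

/-- `ε` is a basis of the lattice of `u` that is bounded by `C` together with its dual basis. -/
structure LBasis {b : ℚ} (u : ∀ p : Nat.Primes, Gt b ℚ_[p]) (h : Gt b ℝ) (C : ℝ)
    (ε : I × Fin 3 → I → Cub ℚ) : Prop where
  li : LinearIndependent ℚ ε
  span : ∀ v : I → Cub ℚ, ∃ c : I × Fin 3 → ℚ, v = ∑ k, c k • ε k
  int : ∀ (p : Nat.Primes) k, IntV (((u p).1⁻¹).1 *ᵥ vmap ℚ_[p] (ε k))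
  int' : ∀ (p : Nat.Primes) (v : I → Cub ℚ_[p]), IntV v → ∃ c : I × Fin 3 → ℚ_[p],
    (∀ k, ‖c k‖ ≤ 1) ∧ (u p).1.1 *ᵥ v = ∑ k, c k • vmap ℚ_[p] (ε k)
  bd : ∀ k, BdV C ((h.1⁻¹).1 *ᵥ vmap ℝ (ε k))
  bd' : ∀ v : I → Cub ℝ, BdV 1 v → ∃ c : I × Fin 3 → ℝ,
    (∀ k, |c k| ≤ C) ∧ h.1.1 *ᵥ v = ∑ k, c k • vmap ℝ (ε k)

/-- Points of the diagonal torus of the group of similitudes. -/
def InT {A : Type} [CommGroup A] (d : I → A) : Prop :=
  ∃ ν, ∀ a b, Adj a b → d a * d b * d (thd a b) = ν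

/-- Tensors supported on the 45 triples. -/
def Supp {R : Type} [CommRing R] (n : T3 R) : Prop := ∀ a b c, ¬ Tr a b c → n a b c = 0

/-- The permutation matrix that sends `e_y` to `e_(w y)`. -/
def pm (R : Type) [CommRing R] (w : Equiv.Perm I) : Matrix I I R :=
  Matrix.of fun x y => if x = w y then 1 else 0

/-- The diagonal matrix of a family of units. -/
def dg {R : Type} [CommRing R] (d : I → Rˣ) : Matrix I I R := diagonal fun x => (d x).1

/-- The diagonal matrix of a family of units as an invertible matrix. -/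
def dgU {R : Type} [CommRing R] (d : I → Rˣ) : GL I R where
  val := dg d
  inv := dg d⁻¹
  val_inv := by simp [dg, diagonal_mul_diagonal]
  inv_val := by simp [dg, diagonal_mul_diagonal]

section Base

variable {F : Type} [Field F]

/-- The root factor. -/
def ff (lam : I → Fˣ) (a d : I) : F := (lam a).1 / (lam d).1 - (lam d).1 / (lam a).1

/-- The product of the eight root factors attached to an adjacent pair. -/
def RR (lam : I → Fˣ) (a b : I) : F :=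
  ∏ d ∈ Finset.univ.filter fun d => Adj d (thd a b) ∧ d ≠ a ∧ d ≠ b, ff lam a d

/-- The base tensor attached to a regular point of the torus. -/
def eT (lam : I → Fˣ) : T3 F := fun a b c =>
  if Tr a b c then RR lam a b * RR lam b c * RR lam c a else 0

/-- The dual of the base tensor. -/
def eT' (lam : I → Fˣ) : T3 F := fun a b c => (eT lam a b c)⁻¹

/-- The self-duality of the base tensor. -/
def dl (lam : I → Fˣ) (a : I) : F := ∏ d ∈ Finset.univ.filter fun d => Rt a d, ff lam a d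

end Base

variable {F : Type} [Field F] [NumberField F]

/-- The map from the cubic algebra over `k` to `k ⊗ F`. -/
noncomputable def jk (k : Type) [CommRing k] [Algebra ℚ k] (j : Cub ℚ →+* F) :
    Cub k →+* k ⊗[ℚ] F :=
  Cub.lift (algebraMap k (k ⊗[ℚ] F)) (inc k F (j Cub.eta)) (by
    have h := congrArg ((inc k F).comp j) (Cub.eta_root (R := ℚ))
    simpa only [map_sub, map_add, map_pow, map_mul, map_one, map_zero, map_ofNat,
      RingHom.comp_apply] using h)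

variable (F) in
/-- Spectral data: the eigenvalues of a regular element in a Galois splitting field. -/
structure Spec where
  j : Cub ℚ →+* F
  ix : Aut F → ℕ
  lam : I → Fˣ
  w : Aut F →* Equiv.Perm I
  v : F →+* PadicAlgCl 13
  c : ℕ
  r : ℝ
  ix_lt : ∀ s, ix s < 3
  hix : ∀ s x, s (j x) = j ((Cub.sig ^ ix s) x)
  hw : ∀ s a, s (lam a).1 = (lam (w s a)).1
  adj : ∀ s a b, Adj (w s a) (w s b) ↔ Adj a b
  inT : InT lam
  c_pos : 0 < c
  r_pos : 0 < r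
  norm : ∀ a, ‖v (lam a).1‖ = r * (13 : ℝ) ^ ((c : ℤ) * lv a)

/-- The carry cocycle. -/
def Spec.cy (D : Spec F) (s t : Aut F) : ℕ := (D.ix s + D.ix t) / 3

/-- An eigenbasis of `γ` normalised by the base tensor, with its cocycle. -/
structure Frame (D : Spec F) (b : ℚ) (γ : UG b ℚ) (P : GL I F) (a : Aut F → I → Fˣ) : Prop where
  eig : ∃ g : Gt b ℚ, QuotientGroup.mk g = γ ∧ g.1.1.map D.j * P.1 = P.1 * dg D.lam
  sim : ∃ ν, Sim (eT D.lam) (nJ F) P.1 ν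
  coc : ∀ s : Aut F, ph b F ^ D.ix s * P.1.map s = P.1 * (dg (a s) * pm F (D.w s))

/-- The rational points of the torus. -/
def Spec.Tor (D : Spec F) : Subgroup (I → Fˣ) where
  carrier := {x | InT x ∧ ∀ (s : Aut F) a, s (x a).1 = (x (D.w s a)).1}
  one_mem' := ⟨⟨1, fun _ _ _ => by simp⟩, fun _ _ => by simp⟩
  mul_mem' := by
    rintro x y ⟨⟨ν, hx⟩, hx'⟩ ⟨⟨μ, hy⟩, hy'⟩
    refine ⟨⟨ν * μ, fun a b h => ?_⟩, fun s a => by simp [hx', hy']⟩
    rw [← hx a b h, ← hy a b h]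
    simp only [Pi.mul_apply]
    ac_rfl
  inv_mem' := by
    rintro x ⟨⟨ν, hx⟩, hx'⟩
    refine ⟨⟨ν⁻¹, fun a b h => ?_⟩, fun s a => by simp [hx']⟩
    rw [← hx a b h]
    simp only [Pi.inv_apply, mul_inv]

/-- The local conditions on the twisting cochain `η`. -/
def LocTw (D : Spec F) (S' : Finset Nat.Primes) (η a : Aut F → I → Fˣ) : Prop :=
  ∃ (t : I → Idele F) (z : Aut F → Idele F), InT t ∧
    (∀ (p : Nat.Primes) s x, incU ℚ_[p] F (η s x * if p ∈ S' then a s x ^ 2 else 1) =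
      (z s * s • t ((D.w s)⁻¹ x) * (t x)⁻¹).1.1 p) ∧
    ∀ s x, incU ℝ F (η s x) = (z s * s • t ((D.w s)⁻¹ x) * (t x)⁻¹).1.2

/-- Integral matrices over the semi-local algebra. -/
def IntA {p : ℕ} [Fact p.Prime] (g : GL I (Ap p F)) : Prop :=
  ∀ x y, IsIntegral ℤ_[p] (g.1 x y) ∧ IsIntegral ℤ_[p] ((g⁻¹).1 x y)

/-- Local frames for the twisted cocycle `a'` with respect to the second group. -/
structure LocFr (D : Spec F) {b b' : ℚ} (S' : Finset Nat.Primes)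
    (e : ∀ p : Nat.Primes, UG b ℚ_[p] ≃ₜ* UG b' ℚ_[p]) (P : GL I F) (a' : Aut F → I → Fˣ)
    (g : ∀ p : Nat.Primes, GL I (Ap p.1 F)) (g' : GL I (Ai F)) (c : Aut F → Idele F)
    (m : GL I (Cub ℝ)) : Prop where
  sim : ∀ p : Nat.Primes, ∃ ν, Sim ((eT D.lam).map (inc ℚ_[p] F)) (nJ _) (g p).1 ν
  sim' : ∃ ν, Sim ((eT D.lam).map (inc ℝ F)) (nJ _) g'.1 ν
  coc : ∀ (p : Nat.Primes) (s : Aut F), (g p).1 * (dg (a' s) * pm F (D.w s)).map (inc ℚ_[p] F) =
    ((c s).1.1 p).1 • (ph b' _ ^ D.ix s * (g p).1.map (lact ℚ_[p] s))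
  coc' : ∀ s : Aut F, g'.1 * (dg (a' s) * pm F (D.w s)).map (inc ℝ F) =
    (c s).1.2.1 • (ph b' _ ^ D.ix s * g'.1.map (lact ℝ s))
  fin : {p : Nat.Primes | ¬ IntA (g p)}.Finite
  conj : ∀ (p : Nat.Primes) (h : Gt b ℚ) (x : I → Fˣ), h.1.1.map D.j * P.1 = P.1 * dg x →
    ∃ h' : Gt b' ℚ_[p], QuotientGroup.mk h' = e p (Phi b (QuotientGroup.mk h) p) ^ eps S' p ∧
      h'.1.1.map (jk ℚ_[p] D.j) * (g p).1 = (g p).1 * (dg x).map (inc ℚ_[p] F)
  mem : m ∈ Str (nJ (Cub ℝ))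
  conj' : ∀ (h : Gt b ℚ) (x : I → Fˣ), h.1.1.map D.j * P.1 = P.1 * dg x →
    (m.1 * (gmap b (algebraMap ℚ ℝ) h).1.1 * (m⁻¹).1).map (jk ℝ D.j) * g'.1 =
      g'.1 * (dg x).map (inc ℝ F)

/-- `γ` and `γ'` are matched. -/
def Mat {P : Type} {U : P → Type} [∀ p, Group (U p)] {G G' : Type} [Group G] [Group G']
    (Φ : G →* ∀ p, U p) (Φ' : G' →* ∀ p, U p) (ρ : G →* E6) (ρ' : G' →* E6)
    (K₀ : ∀ p, Subgroup (U p)) (ε : P → ℤ) (γ : G) (γ' : G') : Prop :=
  ∃ (τ : Subgroup.centralizer {γ} ≃* Subgroup.centralizer {γ'}) (u : ∀ p, U p) (g : E6),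
    (∀ t : Subgroup.centralizer {γ}, (t : G) = γ → (τ t : G') = γ') ∧
    (∀ t t' : Subgroup.centralizer {γ}, t * t' = t' * t) ∧ u ∈ Ad K₀ ∧
    (∀ p (t : Subgroup.centralizer {γ}), Φ' (τ t) p * u p = u p * Φ t p ^ ε p) ∧
    ∀ t : Subgroup.centralizer {γ}, ρ' (τ t) * g = g * ρ t

end Pool.Agent.P.MP_3c2f8c_gt.Ex
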