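import Mathlib

/-!
Definitions for the statement in type `E₆`: octonions, the cubic norm of the exceptional Jordan
algebra, the group `E₆(-26)`, its symmetric space with the Laplace-Beltrami operator, eigenspaces
on quotients, and arithmetic groups defined by inner twists over the rationals.
-/

namespace Pool.Agent.P.MP_3c2f8c_gt.St

open Matrix NumberField
open scoped Quaternion

section Algebra

variable {R : Type} [CommRing R]

/-- Octonions over `R`: pairs of Hamilton quaternions. -/
abbrev Oct (R : Type) [CommRing R] : Type := ℍ[R] × ℍ[R]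

/-- The Cayley-Dickson product `(a, b) (c, d) = (a c - d̄ b, d a + b c̄)`. -/
def omul (x y : Oct R) : Oct R := (x.1 * y.1 - star y.2 * x.2, y.2 * x.1 + x.2 * star y.1)

/-- The norm of an octonion: the sum of the squares of its eight coordinates. -/
def onorm (x : Oct R) : R := Quaternion.normSq x.1 + Quaternion.normSq x.2

/-- The trace `x + x̄` of an octonion. -/
def otr (x : Oct R) : R := 2 * x.1.re

/-- The index set of the 27 coordinates of a hermitian `3 × 3` matrix of octonions: three diagonal
entries and three octonions. -/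
def I : Type := Fin 3 ⊕ Fin 3 × Fin 8

instance : Fintype I := (inferInstance : Fintype (Fin 3 ⊕ Fin 3 × Fin 8))

instance : DecidableEq I := (inferInstance : DecidableEq (Fin 3 ⊕ Fin 3 × Fin 8))

/-- The `i`-th octonion entry of the hermitian matrix with coordinates `x`. -/
def oc (x : I → R) (i : Fin 3) : Oct R :=
  (⟨x (.inr (i, 0)), x (.inr (i, 1)), x (.inr (i, 2)), x (.inr (i, 3))⟩,
    ⟨x (.inr (i, 4)), x (.inr (i, 5)), x (.inr (i, 6)), x (.inr (i, 7))⟩)

/-- The cubic norm (determinant) of the hermitian matrix with rows `(α₀, x₂, x̄₁)`,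
`(x̄₂, α₁, x₀)`, `(x₁, x̄₀, α₂)`. -/
def NJ (x : I → R) : R :=
  x (.inl 0) * x (.inl 1) * x (.inl 2) - ∑ i : Fin 3, x (.inl i) * onorm (oc x i) +
    otr (omul (omul (oc x 0) (oc x 1)) (oc x 2))

/-- The trace form `tr (x ∘ y)` of the Jordan algebra. -/
def TJ (x y : I → R) : R :=
  ∑ i : Fin 3, x (.inl i) * y (.inl i) + 2 * ∑ j : Fin 3 × Fin 8, x (.inr j) * y (.inr j)

/-- The identity matrix. -/
def eJ : I → R := Sum.elim 1 0

end Algebra

section Space

/-- The invertible linear maps of the real exceptional Jordan algebra that preserve the cubic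
norm. -/
def E6sub : Subgroup (GL I ℝ) where
  carrier := {g | ∀ x, NJ (g.1 *ᵥ x) = NJ x}
  one_mem' := fun x => by simp
  mul_mem' := by
    intro g h hg hh x
    rw [Units.val_mul, ← mulVec_mulVec, hg, hh]
  inv_mem' := by
    intro g hg x
    rw [← hg, mulVec_mulVec, ← Units.val_mul, mul_inv_cancel, Units.val_one, one_mulVec]

/-- The group `E₆(-26)`: the subgroup `E6sub` as a type. -/
def E6 : Type := E6sub

/-- The group structure of the subgroup `E6sub`. -/
noncomputable instance : Group E6 := E6sub.toGroup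

/-- The matrix of an element of `E₆(-26)`. -/
def mat (g : E6) : Matrix I I ℝ := (Subtype.val g : GL I ℝ).1

/-- The symmetric space `E₆(-26) / F₄`: the orbit of the identity matrix. -/
abbrev XS : Type := {x : I → ℝ // ∃ g : E6, mat g *ᵥ eJ = x}

/-- The action of `E₆(-26)` on its symmetric space. -/
noncomputable def act (g : E6) (x : XS) : XS :=
  ⟨mat g *ᵥ x.1, by
    obtain ⟨h, hh⟩ := x.2
    exact ⟨g * h, by rw [← hh, mulVec_mulVec]; rfl⟩⟩

/-- The radial projection onto the hypersurface `NJ = 1`. -/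
noncomputable def rad (x : I → ℝ) : I → ℝ := NJ x ^ (-(1 / 3) : ℝ) • x

/-- The cone over the symmetric space. -/
def cone : Set (I → ℝ) := {x | 0 < NJ x ∧ ∃ g : E6, mat g *ᵥ eJ = rad x}

open Classical in
/-- The extension of a function on the symmetric space to the cone, homogeneous of degree `0`. -/
noncomputable def ext (f : XS → ℝ) (x : I → ℝ) : ℝ :=
  if hx : x ∈ cone then f ⟨rad x, hx.2⟩ else 0

/-- The derivative in the direction of the coordinate `a`. -/
noncomputable def pd (a : I) (F : (I → ℝ) → ℝ) (x : I → ℝ) : ℝ := fderiv ℝ F x (Pi.single a 1)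

/-- The invariant Riemannian metric of the cone: minus the Hessian of `log NJ`. -/
noncomputable def gm (x : I → ℝ) : Matrix I I ℝ :=
  Matrix.of fun a b => -pd a (pd b fun y => Real.log (NJ y)) x

/-- The Laplace-Beltrami operator of the metric `gm`, in coordinates. -/
noncomputable def lapC (F : (I → ℝ) → ℝ) (x : I → ℝ) : ℝ :=
  (√(gm x).det)⁻¹ * ∑ a, pd a (fun y => √(gm y).det * ∑ b, (gm y)⁻¹ a b * pd b F y) x

/-- The Laplace-Beltrami operator of the symmetric space. The cone is the Riemannian product of a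
line and the symmetric space, so this is `lapC` on the extension of degree `0`. -/
noncomputable def lap (f : XS → ℝ) (x : XS) : ℝ := lapC (ext f) x.1

/-- Smooth functions on the symmetric space. -/
def Smooth (f : XS → ℝ) : Prop := ContDiffOn ℝ (⊤ : ℕ∞) (ext f) cone

/-- The eigenspace of the Laplacian on the quotient by `Γ`: the span of the smooth `Γ`-invariant
functions `f` with `lap f = -ev * f`. -/
def Eig (Γ : Subgroup E6) (ev : ℝ) : Submodule ℝ (XS → ℝ) :=
  Submodule.span ℝ
    {f | Smooth f ∧ (∀ g ∈ Γ, ∀ x, f (act g x) = f x) ∧ ∀ x, lap f x = -ev * f x}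

/-- The quotient of the symmetric space by `Γ` is a closed manifold: `Γ` is discrete, torsion-free
and cocompact. -/
def IsClosedMfd (Γ : Subgroup E6) : Prop :=
  (∀ C : ℝ, {g : E6 | g ∈ Γ ∧ ∀ a b, |mat g a b| ≤ C}.Finite) ∧
  (∀ g ∈ Γ, IsOfFinOrder g → g = 1) ∧
  ∃ C : Set XS, IsCompact C ∧ ∀ x : XS, ∃ g ∈ Γ, act g x ∈ C

/-- The two quotients have the same Laplace eigenvalues with the same finite multiplicities. -/
def Isospectral (Γ₁ Γ₂ : Subgroup E6) : Prop :=
  ∀ ev : ℝ, Module.Finite ℝ (Eig Γ₁ ev) ∧ Module.Finite ℝ (Eig Γ₂ ev) ∧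
    Module.finrank ℝ (Eig Γ₁ ev) = Module.finrank ℝ (Eig Γ₂ ev)

/-- The image of `Γ` under the Cartan involution: inverse of the adjoint for the trace form. -/
def dualGrp (Γ : Subgroup E6) : Subgroup E6 where
  carrier := {h | ∃ g ∈ Γ, ∀ x y, TJ (mat g *ᵥ x) (mat h *ᵥ y) = TJ x y}
  one_mem' := ⟨1, one_mem _, fun x y => by
    rw [show mat 1 = 1 from rfl, one_mulVec, one_mulVec]⟩
  mul_mem' := by
    rintro h h' ⟨g, hg, e⟩ ⟨g', hg', e'⟩
    refine ⟨g * g', mul_mem hg hg', fun x y => ?_⟩
    rw [show mat (g * g') = mat g * mat g' from rfl, show mat (h * h') = mat h * mat h' from rfl,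
      ← mulVec_mulVec, ← mulVec_mulVec, e, e']
  inv_mem' := by
    rintro h ⟨g, hg, e⟩
    refine ⟨g⁻¹, inv_mem hg, fun x y => ?_⟩
    rw [← e, mulVec_mulVec, mulVec_mulVec, show mat g * mat g⁻¹ = mat (g * g⁻¹) from rfl,
      show mat h * mat h⁻¹ = mat (h * h⁻¹) from rfl, mul_inv_cancel, mul_inv_cancel,
      show mat 1 = 1 from rfl, one_mulVec, one_mulVec]

/-- The two quotients have a common finite isometric cover. The isometry group of the symmetric
space is generated by `E₆(-26)` and the geodesic symmetry at the base point, which induces the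
Cartan involution. -/
def WideComm (Γ₁ Γ₂ : Subgroup E6) : Prop :=
  ∃ g : E6, Subgroup.Commensurable (Γ₁.map (MulAut.conj g).toMonoidHom) Γ₂ ∨
    Subgroup.Commensurable ((dualGrp Γ₁).map (MulAut.conj g).toMonoidHom) Γ₂

end Space

section Arithmetic

/-- The invertible matrices `g` over the integers of `L` with `g φ = φ σ(g)`. -/
def Fix {L : Type} [Field L] (σ : L ≃+* L) (φ : Matrix I I L) : Subgroup (GL I (𝓞 L)) where
  carrier := {g | g.1.map (algebraMap (𝓞 L) L) * φ = φ * (g.1.map (algebraMap (𝓞 L) L)).map σ}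
  one_mem' := by simp
  mul_mem' := by
    intro g h hg hh
    simp only [Set.mem_ofPred_eq, Units.val_mul, Matrix.map_mul] at hg hh ⊢
    rw [Matrix.mul_assoc, hh, ← Matrix.mul_assoc, hg, Matrix.mul_assoc]
  inv_mem' := by
    intro g hg
    simp only [Set.mem_ofPred_eq] at hg ⊢
    set A := g.1.map (algebraMap (𝓞 L) L)
    set B := (g⁻¹).1.map (algebraMap (𝓞 L) L)
    have h1 : B * A = 1 := by
      rw [← Matrix.map_mul, ← Units.val_mul, inv_mul_cancel]
      simp
    have h2 : A.map σ * B.map σ = 1 := by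
      rw [← Matrix.map_mul, mul_eq_one_comm.1 h1]
      simp
    calc B * φ = B * φ * (A.map σ * B.map σ) := by rw [h2, Matrix.mul_one]
      _ = B * (φ * A.map σ) * B.map σ := by simp only [Matrix.mul_assoc]
      _ = φ * B.map σ := by rw [← hg, ← Matrix.mul_assoc, h1, Matrix.one_mul]

/-- The map on invertible matrices over the integers of `L` given by a real embedding of `L`. -/
noncomputable def emb {L : Type} [Field L] (ι : L →+* ℝ) : GL I (𝓞 L) →* GL I ℝ :=
  Units.map (ι.comp (algebraMap (𝓞 L) L)).mapMatrix.toMonoidHom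

/-- The elements of `E₆(-26)` that are images under `ι` of integral `g` with `g φ = φ σ(g)`. -/
noncomputable def intPts {L : Type} [Field L] (σ : L ≃+* L) (ι : L →+* ℝ) (φ : Matrix I I L) :
    Subgroup E6 :=
  ((Fix σ φ).map (emb ι)).subgroupOf E6sub

/-- `Γ` is an arithmetic subgroup of `E₆(-26)` defined by an inner `ℚ`-form of type `E₆`. There are
a cyclic cubic field `L` with a generator `σ` of its Galois group, a real embedding `ι` and a
similitude `φ` of the cubic norm over `L` with `φ σ(φ) σ²(φ)` a nonzero scalar. Twisting the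
`ℚ`-group of the cubic norm by the cocycle `σ ↦ Ad φ` gives the `ℚ`-group whose points over `A`
are the `g` over `L ⊗ A` that preserve the norm and satisfy `g φ = φ σ(g)`; its real points
project isomorphically onto `E₆(-26)` through `ι`. `Γ` is commensurable with the image of the
integral points. -/
def IsArith (Γ : Subgroup E6) : Prop :=
  ∃ (L : Type) (_ : Field L) (_ : NumberField L) (σ : L ≃+* L) (ι : L →+* ℝ) (φ : Matrix I I L)
    (ν β : L), Module.finrank ℚ L = 3 ∧ σ ≠ RingEquiv.refl L ∧ β ≠ 0 ∧
    (∀ x, NJ (φ *ᵥ x) = ν * NJ x) ∧ φ * φ.map σ * (φ.map σ).map σ = β • (1 : Matrix I I L) ∧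
    Subgroup.Commensurable Γ (intPts σ ι φ)

end Arithmetic

end Pool.Agent.P.MP_3c2f8c_gt.St
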